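import Mathlib
import Pool.Agent.Helper9.TC.Defs
import Pool.Agent.Helper52.PS.Data

/-! Kernel verification for small roots (MP_1181b9_nt, block K): semiprimes
`(N - d) (N + d)`, `N = n + 1`, found by bit masks; the exceptional roots are handled by lists of
certificates. -/

set_option autoImplicit false

namespace Pool.Agent.Helper69.TC

open Pool.Agent.Helper9.TC Pool.Agent.Helper52.PS

/-- the product of the primes `≤ 3001` -/
def PR1 : ℕ := nat_lit 96536305149585156542268896370899810184649865460156396518497622819789146084172785403820319604089021110502166649393365369489152241153462634496274345729832246811492628500742108883894941951840886508734529072391047490388978967818388845844649448116875361630733090993630137917799999255006420073113325146132836167066607167676154592322230485609459416513168834800293238203408800457347039613954152342033189331681050983915053636928770781471177523782449850634023566747294527448407536947788847146153254865081827935508604477692704660265574447937985216450647259088645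841081113662846409547822834299408954642884636806323115495464756759243882689437495225487806889785153574502755089543787968581322230122442712141716053522032167231504767669310259367410462434974700603681925717642404482610867131714944074942830519682587813320147927238837061788698133643170139186209363450672840091753627707105745337341774587079860891220103943343825626773895475197658624876677730925051469140356964356316407750983984425459150699229094540922236744953027941674290952450913001251264660291234677858299527398254848457930112422678320804010002066466388313759849705387093889749765092382296179067652294224102399451871288109825249187738733065685037246566457292441346332832930594107591488133993213197938567446376954550923970475370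

/-- the product of the primes `≤ 61` -/
def PR2 : ℕ := nat_lit 117288381359406970983270

/-- primality test for `62 ≤ x ≤ 9006000` -/
noncomputable def isP (x : ℕ) : Bool :=
  Bool.rec (motive := fun _ => Bool)
    (Bool.rec (motive := fun _ => Bool) false (Nat.beq (Nat.gcd x PR2) (nat_lit 1))
      (Nat.ble (nat_lit 62) x))
    (Bool.rec (motive := fun _ => Bool) false (Nat.beq (Nat.gcd x PR1) (nat_lit 1))
      (Nat.ble x (nat_lit 9006000)))
    (Nat.ble (nat_lit 3002) x)

/-- all `2 ≤ k`, `a ≤ k < a + n` have a common factor with `P` -/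
noncomputable def allG (P n : ℕ) : ℕ → Bool :=
  Nat.rec (motive := fun _ => ℕ → Bool) (fun _ => true)
    (fun _ ih a => Bool.rec (motive := fun _ => Bool) (ih (Nat.add a (nat_lit 1)))
      (Bool.rec (motive := fun _ => Bool) (ih (Nat.add a (nat_lit 1))) false
        (Nat.beq (Nat.gcd a P) (nat_lit 1)))
      (Nat.ble (nat_lit 2) a)) n

noncomputable def allGG (P n r : ℕ) : ℕ → Bool :=
  Nat.rec (motive := fun _ => ℕ → Bool) (fun _ => true)
    (fun _ ih a => Bool.rec (motive := fun _ => Bool) false (ih (Nat.add a n)) (allG P n a)) r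

theorem allG_spec (P n a : ℕ) (h : allG P n a = true) :
    ∀ k, a ≤ k → k < a + n → 2 ≤ k → Nat.gcd k P ≠ 1 := by
  induction n generalizing a with
  | zero => intro k hk; omega
  | succ n ih =>
    have hdef : allG P (n + 1) a = Bool.rec (motive := fun _ => Bool) (allG P n (a + 1))
      (Bool.rec (motive := fun _ => Bool) (allG P n (a + 1)) false (Nat.beq (Nat.gcd a P) 1))
      (Nat.ble 2 a) := rfl
    rw [hdef] at h
    have hn : allG P n (a + 1) = true ∧ (2 ≤ a → Nat.gcd a P ≠ 1) := by
      cases h2 : Nat.ble 2 a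
      · rw [h2] at h
        exact ⟨h, fun hc => by rw [Nat.ble_eq_true_of_le hc] at h2; exact absurd h2 (by simp)⟩
      · rw [h2] at h
        cases h3 : Nat.beq (Nat.gcd a P) 1
        · rw [h3] at h
          refine ⟨h, fun _ hc => ?_⟩
          rw [hc] at h3
          exact absurd h3 (by decide)
        · rw [h3] at h
          exact absurd h (by simp)
    intro k hk hk2 h2
    rcases Nat.eq_or_lt_of_le hk with h3 | h3
    · subst h3; exact hn.2 h2
    · exact ih (a + 1) hn.1 k h3 (by omega) h2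

theorem rec_false {b : Bool} {t : Bool}
    (h : Bool.rec (motive := fun _ => Bool) false t b = true) : b = true ∧ t = true := by
  cases b
  · exact absurd h (by simp)
  · exact ⟨rfl, h⟩

theorem rec_zero {b : Bool} {t : ℕ}
    (h : Bool.rec (motive := fun _ => ℕ) 0 t b ≠ 0) : b = true ∧ t ≠ 0 := by
  cases b
  · exact absurd rfl h
  · exact ⟨rfl, h⟩

theorem allGG_spec (P n r a : ℕ) (h : allGG P n r a = true) :
    ∀ k, a ≤ k → k < a + n * r → 2 ≤ k → Nat.gcd k P ≠ 1 := by
  induction r generalizing a with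
  | zero => intro k hk; omega
  | succ r ih =>
    have hdef : allGG P n (r + 1) a = Bool.rec (motive := fun _ => Bool) false
      (allGG P n r (a + n)) (allG P n a) := rfl
    rw [hdef] at h
    obtain ⟨h1, h2⟩ := rec_false h
    intro k hk hk2 hk3
    rcases Nat.lt_or_ge k (a + n) with h3 | h3
    · exact allG_spec P n a h1 k hk h3 hk3
    · exact ih (a + n) h2 k h3 (by rw [Nat.mul_succ] at hk2; omega) hk3

theorem PR1_ok : ∀ k < 3002, 2 ≤ k → Nat.gcd k PR1 ≠ 1 := by
  intro k hk h2
  exact allGG_spec PR1 (nat_lit 79) (nat_lit 38) (nat_lit 0) (by decide +kernel) k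
    (Nat.zero_le k) (by simpa using hk) h2

theorem PR2_ok : ∀ k < 62, 2 ≤ k → Nat.gcd k PR2 ≠ 1 := by
  intro k hk h2
  exact allGG_spec PR2 (nat_lit 31) (nat_lit 2) (nat_lit 0) (by decide +kernel) k
    (Nat.zero_le k) (by simpa using hk) h2

theorem prime_of_gcd (P B x : ℕ) (hP : ∀ k < B, 2 ≤ k → Nat.gcd k P ≠ 1) (hx : 2 ≤ x)
    (hxB : x < B * B) (hg : Nat.gcd x P = 1) : x.Prime := by
  by_contra hnp
  have hmp := Nat.minFac_prime (by omega : x ≠ 1)
  have hmd := Nat.minFac_dvd x
  have hsq : x.minFac * x.minFac ≤ x := by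
    have := Nat.minFac_sq_le_self (by omega : 0 < x) hnp
    rwa [sq] at this
  have hlt : x.minFac < B := by
    by_contra h
    push Not at h
    have : B * B ≤ x.minFac * x.minFac := Nat.mul_le_mul h h
    omega
  have h1 := hP _ hlt hmp.two_le
  apply h1
  have h2 : Nat.gcd x.minFac P ∣ Nat.gcd x P := Nat.gcd_dvd_gcd_of_dvd_left P hmd
  rw [hg] at h2
  exact Nat.dvd_one.mp h2

theorem isP_prime (x : ℕ) (h : isP x = true) : x.Prime := by
  unfold isP at h
  have e : ∀ (b : Bool) (s t : Bool), Bool.rec (motive := fun _ => Bool) s t b = true →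
      (b = false ∧ s = true) ∨ (b = true ∧ t = true) := by
    intro b s t hb; cases b
    · exact Or.inl ⟨rfl, hb⟩
    · exact Or.inr ⟨rfl, hb⟩
  rcases e _ _ _ h with ⟨h1, h2⟩ | ⟨h1, h2⟩
  · rcases e _ _ _ h2 with ⟨_, h4⟩ | ⟨h3, h4⟩
    · exact absurd h4 (by simp)
    · have h5 : 62 ≤ x := Nat.le_of_ble_eq_true h3
      have h6 : ¬ 3002 ≤ x := fun hc => by
        rw [Nat.ble_eq_true_of_le hc] at h1; exact absurd h1 (by simp)
      exact prime_of_gcd PR2 62 x PR2_ok (by omega) (by omega) (Nat.eq_of_beq_eq_true h4)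
  · rcases e _ _ _ h2 with ⟨_, h4⟩ | ⟨h3, h4⟩
    · exact absurd h4 (by simp)
    · have h5 : x ≤ 9006000 := Nat.le_of_ble_eq_true h3
      have h6 : 3002 ≤ x := Nat.le_of_ble_eq_true h1
      exact prime_of_gcd PR1 3002 x PR1_ok (by omega) (by omega) (Nat.eq_of_beq_eq_true h4)

/-- products of two primes `p < q` with `p ∤ q - 1` are cyclic -/
theorem cyc_mul' (p q : ℕ) (hp : p.Prime) (hq : q.Prime) (hlt : p < q) (hnd : ¬ p ∣ q - 1) :
    Cyc (p * q) := by
  refine ⟨Nat.mul_pos hp.pos hq.pos, ?_⟩
  have hcop : Nat.Coprime p q := (Nat.coprime_primes hp hq).mpr (by omega)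
  rw [Nat.totient_mul hcop, Nat.totient_prime hp, Nat.totient_prime hq]
  have h1 : Nat.Coprime p (p - 1) := by
    rw [Nat.Prime.coprime_iff_not_dvd hp]
    intro h
    have := Nat.le_of_dvd (by have := hp.two_le; omega) h
    have := hp.two_le
    omega
  have h2 : Nat.Coprime p (q - 1) := (Nat.Prime.coprime_iff_not_dvd hp).mpr hnd
  have h3 : Nat.Coprime q (p - 1) := by
    rw [Nat.Prime.coprime_iff_not_dvd hq]
    intro h
    have := Nat.le_of_dvd (by have := hp.two_le; omega) h
    omega
  have h4 : Nat.Coprime q (q - 1) := by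
    rw [Nat.Prime.coprime_iff_not_dvd hq]
    intro h
    have := Nat.le_of_dvd (by have := hq.two_le; omega) h
    have := hq.two_le
    omega
  exact Nat.Coprime.mul_left (Nat.Coprime.mul_right h1 h2) (Nat.Coprime.mul_right h3 h4)

theorem cyc_prime (p : ℕ) (hp : p.Prime) : Cyc p := by
  refine ⟨hp.pos, ?_⟩
  rw [Nat.totient_prime hp, Nat.Prime.coprime_iff_not_dvd hp]
  intro h
  have := Nat.le_of_dvd (by have := hp.two_le; omega) h
  have := hp.two_le
  omega

/-! ### The bit mask loop -/

/-- bits `i` with both `N - d` and `N + d` prime -/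
noncomputable def XX (P off s e : ℕ) : ℕ :=
  Nat.land (Nat.shiftRight P (Nat.sub off e)) (Nat.shiftRight P (Nat.add off (Nat.add e s)))

noncomputable def pkg (w A B : ℕ) : ℕ :=
  Nat.lor (Nat.land A (Nat.sub (Nat.pow (nat_lit 2) w) (nat_lit 1))) (Nat.shiftLeft B w)

noncomputable def fsg (w Z : ℕ) : ℕ := Nat.land Z (Nat.sub (Nat.pow (nat_lit 2) w) (nat_lit 1))

noncomputable def sng (w Z : ℕ) : ℕ := Nat.shiftRight Z w

noncomputable def pk (A B : ℕ) : ℕ := pkg (nat_lit 65536) A B

noncomputable def fs (Z : ℕ) : ℕ := fsg (nat_lit 65536) Z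

noncomputable def sn (Z : ℕ) : ℕ := sng (nat_lit 65536) Z

noncomputable def loop (P off s K : ℕ) : ℕ → ℕ → ℕ → ℕ :=
  Nat.rec (motive := fun _ => ℕ → ℕ → ℕ → ℕ) (fun _ A B => pk A B)
    (fun _ ih e A B => Bool.rec (motive := fun _ => ℕ)
      (ih (Nat.add e (nat_lit 1)) (Nat.lor A (XX P off s e)) (Nat.lor B (Nat.land A (XX P off s e))))
      (ih (Nat.add e (nat_lit 1)) (Nat.lor A (XX P off s e)) (Nat.lor B (Nat.land A (XX P off s e))))
      (Nat.ble A B)) K

noncomputable def outer (P off s J R : ℕ) : ℕ → ℕ → ℕ :=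
  Nat.rec (motive := fun _ => ℕ → ℕ → ℕ) (fun _ Z => Z)
    (fun _ ih e Z => Bool.rec (motive := fun _ => ℕ)
      (ih (Nat.add e J) (loop P off s J e (fs Z) (sn Z)))
      (ih (Nat.add e J) (loop P off s J e (fs Z) (sn Z)))
      (Nat.beq Z (nat_lit 0))) R

theorem fsg_pkg (w A B i : ℕ) (h : (fsg w (pkg w A B)).testBit i = true) :
    A.testBit i = true := by
  have e : fsg w (pkg w A B) = ((A &&& (2 ^ w - 1)) ||| (B <<< w)) &&& (2 ^ w - 1) := rfl
  rw [e, Nat.testBit_and, Bool.and_eq_true, Nat.testBit_or, Bool.or_eq_true, Nat.testBit_and,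
    Bool.and_eq_true, Nat.testBit_shiftLeft, Bool.and_eq_true, Nat.testBit_two_pow_sub_one,
    decide_eq_true_eq, decide_eq_true_eq] at h
  rcases h with ⟨⟨h, _⟩ | ⟨h1, _⟩, h2⟩
  · exact h
  · omega

theorem sng_pkg (w A B i : ℕ) (h : (sng w (pkg w A B)).testBit i = true) :
    B.testBit i = true := by
  have e : sng w (pkg w A B) = ((A &&& (2 ^ w - 1)) ||| (B <<< w)) >>> w := rfl
  rw [e, Nat.testBit_shiftRight, Nat.testBit_or, Bool.or_eq_true, Nat.testBit_and,
    Bool.and_eq_true, Nat.testBit_shiftLeft, Bool.and_eq_true, Nat.testBit_two_pow_sub_one,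
    decide_eq_true_eq, decide_eq_true_eq] at h
  rcases h with ⟨_, h⟩ | ⟨_, h⟩
  · omega
  · rwa [Nat.add_sub_cancel_left] at h

theorem fs_pk (A B i : ℕ) (h : (fs (pk A B)).testBit i = true) : A.testBit i = true :=
  fsg_pkg _ A B i h

theorem sn_pk (A B i : ℕ) (h : (sn (pk A B)).testBit i = true) : B.testBit i = true :=
  sng_pkg _ A B i h

theorem loop_zero (P off s e A B : ℕ) : loop P off s 0 e A B = pk A B := rfl

theorem loop_succ (P off s K e A B : ℕ) : loop P off s (K + 1) e A B =
    loop P off s K (e + 1) (A ||| XX P off s e) (B ||| (A &&& XX P off s e)) := by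
  show Bool.rec (motive := fun _ => ℕ)
    (loop P off s K (e + 1) (A ||| XX P off s e) (B ||| (A &&& XX P off s e)))
    (loop P off s K (e + 1) (A ||| XX P off s e) (B ||| (A &&& XX P off s e)))
    (Nat.ble A B) = _
  cases Nat.ble A B <;> rfl

theorem outer_zero (P off s J e Z : ℕ) : outer P off s J 0 e Z = Z := rfl

theorem outer_succ (P off s J R e Z : ℕ) : outer P off s J (R + 1) e Z =
    outer P off s J R (e + J) (loop P off s J e (fs Z) (sn Z)) := by
  show Bool.rec (motive := fun _ => ℕ)
    (outer P off s J R (e + J) (loop P off s J e (fs Z) (sn Z)))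
    (outer P off s J R (e + J) (loop P off s J e (fs Z) (sn Z)))
    (Nat.beq Z 0) = _
  cases Nat.beq Z 0 <;> rfl

theorem loop_fs (P off s i : ℕ) (K e A B : ℕ)
    (h : (fs (loop P off s K e A B)).testBit i = true) :
    A.testBit i = true ∨ ∃ e1, e ≤ e1 ∧ e1 < e + K ∧ (XX P off s e1).testBit i = true := by
  induction K generalizing e A B with
  | zero => left; exact fs_pk A B i h
  | succ K ih =>
    rw [loop_succ] at h
    rcases ih _ _ _ h with h1 | ⟨e1, h2, h3, h4⟩
    · rw [Nat.testBit_or, Bool.or_eq_true] at h1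
      rcases h1 with h1 | h1
      · exact Or.inl h1
      · exact Or.inr ⟨e, le_rfl, by omega, h1⟩
    · exact Or.inr ⟨e1, by omega, by omega, h4⟩

theorem loop_sn (P off s i : ℕ) (K e A B : ℕ)
    (h : (sn (loop P off s K e A B)).testBit i = true) :
    B.testBit i = true ∨
    (A.testBit i = true ∧ ∃ e1, e ≤ e1 ∧ e1 < e + K ∧ (XX P off s e1).testBit i = true) ∨
    (∃ e1 e2, e ≤ e1 ∧ e1 < e2 ∧ e2 < e + K ∧ (XX P off s e1).testBit i = true ∧
      (XX P off s e2).testBit i = true) := by
  induction K generalizing e A B with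
  | zero => left; exact sn_pk A B i h
  | succ K ih =>
    rw [loop_succ] at h
    rcases ih _ _ _ h with h1 | ⟨h1, e1, h2, h3, h4⟩ | ⟨e1, e2, h1, h2, h3, h4, h5⟩
    · rw [Nat.testBit_or, Bool.or_eq_true, Nat.testBit_and, Bool.and_eq_true] at h1
      rcases h1 with h1 | ⟨h1, h2⟩
      · exact Or.inl h1
      · exact Or.inr (Or.inl ⟨h1, e, le_rfl, by omega, h2⟩)
    · rw [Nat.testBit_or, Bool.or_eq_true] at h1
      rcases h1 with h1 | h1
      · exact Or.inr (Or.inl ⟨h1, e1, by omega, by omega, h4⟩)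
      · exact Or.inr (Or.inr ⟨e, e1, le_rfl, by omega, by omega, h1, h4⟩)
    · exact Or.inr (Or.inr ⟨e1, e2, by omega, h2, by omega, h4, h5⟩)

theorem outer_sn (P off s i J : ℕ) (R e Z : ℕ)
    (h : (sn (outer P off s J R e Z)).testBit i = true) :
    (sn Z).testBit i = true ∨
    ((fs Z).testBit i = true ∧ ∃ e1, e ≤ e1 ∧ e1 < e + J * R ∧ (XX P off s e1).testBit i = true) ∨
    (∃ e1 e2, e ≤ e1 ∧ e1 < e2 ∧ e2 < e + J * R ∧ (XX P off s e1).testBit i = true ∧
      (XX P off s e2).testBit i = true) := by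
  induction R generalizing e Z with
  | zero => left; exact h
  | succ R ih =>
    rw [outer_succ] at h
    have hJ : J * (R + 1) = J * R + J := Nat.mul_succ J R
    rcases ih _ _ h with h1 | ⟨h1, e1, h2, h3, h4⟩ | ⟨e1, e2, h1, h2, h3, h4, h5⟩
    · rcases loop_sn _ _ _ _ _ _ _ _ h1 with h2 | ⟨h2, e1, h3, h4, h5⟩ | ⟨e1, e2, h2, h3, h4, h5, h6⟩
      · exact Or.inl h2
      · exact Or.inr (Or.inl ⟨h2, e1, h3, by omega, h5⟩)
      · exact Or.inr (Or.inr ⟨e1, e2, h2, h3, by omega, h5, h6⟩)
    · rcases loop_fs _ _ _ _ _ _ _ _ h1 with h5 | ⟨e0, h5, h6, h7⟩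
      · exact Or.inr (Or.inl ⟨h5, e1, by omega, by omega, h4⟩)
      · exact Or.inr (Or.inr ⟨e0, e1, h5, by omega, by omega, h7, h4⟩)
    · exact Or.inr (Or.inr ⟨e1, e2, by omega, h2, by omega, h4, h5⟩)

/-- the bits of the certified exceptional roots -/
noncomputable def excMask (w : ℕ) (l : List ℕ) : ℕ → ℕ :=
  List.rec (motive := fun _ => ℕ → ℕ) (fun z => z)
    (fun x _ ih z => Bool.rec (motive := fun _ => ℕ)
      (ih (Nat.lor z (Nat.shiftLeft (nat_lit 1)
        (Nat.div (Nat.sub (Nat.div x (nat_lit 17592186044416)) w) (nat_lit 2)))))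
      (ih (Nat.lor z (Nat.shiftLeft (nat_lit 1)
        (Nat.div (Nat.sub (Nat.div x (nat_lit 17592186044416)) w) (nat_lit 2)))))
      (Nat.beq z (nat_lit 0))) l

theorem excMask_nil (w z : ℕ) : excMask w [] z = z := rfl

theorem excMask_cons (w x z : ℕ) (l : List ℕ) :
    excMask w (x :: l) z = excMask w l (z ||| (1 <<< ((x / 17592186044416 - w) / 2))) := by
  show Bool.rec (motive := fun _ => ℕ) (excMask w l (z ||| (1 <<< ((x / 17592186044416 - w) / 2))))
    (excMask w l (z ||| (1 <<< ((x / 17592186044416 - w) / 2)))) (Nat.beq z 0) = _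
  cases Nat.beq z 0 <;> rfl

theorem excMask_testBit (w i : ℕ) (l : List ℕ) (z : ℕ) :
    (excMask w l z).testBit i = true ↔
      (z.testBit i = true ∨ ∃ x ∈ l, (x / 17592186044416 - w) / 2 = i) := by
  induction l generalizing z with
  | nil => simp [excMask_nil]
  | cons q l ih =>
    rw [excMask_cons, ih, Nat.testBit_or, Nat.one_shiftLeft, Nat.testBit_two_pow, Bool.or_eq_true,
      decide_eq_true_eq]
    simp only [List.mem_cons, exists_eq_or_imp]
    exact or_assoc

/-- the check of one product `p * q` for the root `N - 1`; returns the product or `0` -/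
noncomputable def prodOf (N p : ℕ) : ℕ :=
  (fun n => (fun q =>
    Bool.rec (motive := fun _ => ℕ) (nat_lit 0)
      (Bool.rec (motive := fun _ => ℕ) (nat_lit 0)
        (Bool.rec (motive := fun _ => ℕ) (nat_lit 0)
          (Bool.rec (motive := fun _ => ℕ) (nat_lit 0)
            (Bool.rec (motive := fun _ => ℕ) (nat_lit 0)
              (Bool.rec (motive := fun _ => ℕ) (Nat.mul p q) (nat_lit 0)
                (Nat.beq (Nat.mod q p) (nat_lit 1)))
              (Nat.ble (Nat.add (Nat.mul p q) (nat_lit 1)) (Nat.mul N N)))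
            (Nat.ble (Nat.add (Nat.mul n n) (nat_lit 1)) (Nat.mul p q)))
          (Nat.ble (Nat.add p (nat_lit 1)) q))
        (isP q))
      (isP p))
    (Nat.lor (Nat.add (Nat.div (Nat.mul n n) p) (nat_lit 1)) (nat_lit 1)))
  (Nat.sub N (nat_lit 1))

/-- the check of a certificate -/
noncomputable def chk (x : ℕ) : Bool :=
  (fun N => (fun c1 => (fun c2 =>
    Bool.rec (motive := fun _ => Bool) false
      (Bool.rec (motive := fun _ => Bool) false (Nat.ble (nat_lit 1) N)
        (Nat.ble (nat_lit 1) c1))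
      (Nat.ble (Nat.add c1 (nat_lit 1)) c2))
    (prodOf N (Nat.sub N (Nat.mod x (nat_lit 4194304)))))
    (prodOf N (Nat.sub N (Nat.mod (Nat.div x (nat_lit 4194304)) (nat_lit 4194304)))))
  (Nat.div x (nat_lit 17592186044416))

theorem prodOf_spec (N p : ℕ) (h : prodOf N p ≠ 0) (_hN : 1 ≤ N) :
    Cyc (prodOf N p) ∧ (N - 1) ^ 2 < prodOf N p ∧ prodOf N p < N ^ 2 := by
  obtain ⟨q, hq⟩ : ∃ q, q = ((N - 1) * (N - 1) / p + 1) ||| 1 := ⟨_, rfl⟩
  have hdef : prodOf N p = Bool.rec (motive := fun _ => ℕ) 0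
      (Bool.rec (motive := fun _ => ℕ) 0
        (Bool.rec (motive := fun _ => ℕ) 0
          (Bool.rec (motive := fun _ => ℕ) 0
            (Bool.rec (motive := fun _ => ℕ) 0
              (Bool.rec (motive := fun _ => ℕ) (p * q) 0 (Nat.beq (q % p) 1))
              (Nat.ble (p * q + 1) (N * N)))
            (Nat.ble ((N - 1) * (N - 1) + 1) (p * q)))
          (Nat.ble (p + 1) q))
        (isP q))
      (isP p) := by rw [hq]; rfl
  rw [hdef] at h
  obtain ⟨a1, h⟩ := rec_zero h
  obtain ⟨a2, h⟩ := rec_zero h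
  obtain ⟨a3, h⟩ := rec_zero h
  obtain ⟨a4, h⟩ := rec_zero h
  obtain ⟨a5, h⟩ := rec_zero h
  have a6 : Nat.beq (q % p) 1 = false := by
    cases hb : Nat.beq (q % p) 1
    · rfl
    · rw [hb] at h; exact absurd rfl h
  have hval : prodOf N p = p * q := by
    rw [hdef, a1, a2, a3, a4, a5, a6]
  have hp := isP_prime p a1
  have hq' := isP_prime q a2
  have h3 : p + 1 ≤ q := Nat.le_of_ble_eq_true a3
  have h4 : (N - 1) * (N - 1) + 1 ≤ p * q := Nat.le_of_ble_eq_true a4
  have h5 : p * q + 1 ≤ N * N := Nat.le_of_ble_eq_true a5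
  have h6 : q % p ≠ 1 := by
    intro hc
    rw [hc] at a6
    exact absurd a6 (by decide)
  rw [hval]
  refine ⟨cyc_mul' p q hp hq' (by omega) ?_, by rw [sq]; omega, by rw [sq]; omega⟩
  rintro ⟨c, hc⟩
  apply h6
  have hq1 : q = 1 + p * c := by omega
  rw [hq1, Nat.add_mul_mod_self_left, Nat.mod_eq_of_lt hp.one_lt]

theorem chk_spec (x : ℕ) (h : chk x = true) : TwoCyc (x / 17592186044416 - 1) := by
  set N := x / 17592186044416 with hN
  set c1 := prodOf N (N - x / 4194304 % 4194304) with hc1
  set c2 := prodOf N (N - x % 4194304) with hc2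
  have hdef : chk x = Bool.rec (motive := fun _ => Bool) false
      (Bool.rec (motive := fun _ => Bool) false (Nat.ble 1 N) (Nat.ble 1 c1))
      (Nat.ble (c1 + 1) c2) := rfl
  rw [hdef] at h
  obtain ⟨a1, h⟩ := rec_false h
  obtain ⟨a2, a3⟩ := rec_false h
  have h1 : c1 + 1 ≤ c2 := Nat.le_of_ble_eq_true a1
  have h2 : 1 ≤ c1 := Nat.le_of_ble_eq_true a2
  have h3 : 1 ≤ N := Nat.le_of_ble_eq_true a3
  obtain ⟨b1, b2, b3⟩ := prodOf_spec N _ (by rw [← hc1]; omega) h3
  obtain ⟨d1, d2, d3⟩ := prodOf_spec N _ (by rw [← hc2]; omega) h3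
  refine ⟨c1, c2, b1, d1, b2, by omega, ?_⟩
  have : N - 1 + 1 = N := by omega
  rw [this]; exact d3

end Pool.Agent.Helper69.TC
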