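import Pool.Agent.Helper69.TC.Base

set_option autoImplicit false

namespace Pool.Agent.Helper69.TC

open Pool.Agent.Helper9.TC Pool.Agent.Helper52.PS

/-- sieving primes below 2048 -/
def gs10 : List (ℕ × List ℕ) := [(nat_lit 15, ps1), (nat_lit 14, ps2), (nat_lit 13, ps3),
  (nat_lit 12, ps4), (nat_lit 11, ps5), (nat_lit 10, ps6), (nat_lit 9, ps7), (nat_lit 8, ps8),
  (nat_lit 7, ps9), (nat_lit 6, ps10)]

theorem big_ge : (∀ q ∈ ps11, 2048 ≤ q) ∧ (∀ q ∈ ps12, 2048 ≤ q) ∧ (∀ q ∈ ps13, 2048 ≤ q) := by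
  decide +kernel

theorem mem10 (i : ℕ) (x : ℕ × List ℕ) (h : gs10[i]? = some x) : x ∈ gs10 :=
  List.mem_of_getElem? h

theorem good10 (L : ℕ) (hL : L ≤ 65536) : GoodGs gs10 2047 4194304 L where
  h1 := by
    have h : ∀ g ∈ gs10, ∀ q ∈ g.2, q % 2 = 1 ∧ 1 < q ∧ q ≤ 2047 ∧ 65536 ≤ q * 2 ^ g.1 := by
      decide +kernel
    intro g hg q hq
    obtain ⟨a, b, c, d⟩ := h g hg q hq
    exact ⟨a, b, c, by omega⟩
  h2 := by
    intro p hp h2 hlt
    have h11 : p < 2048 := by nlinarith
    obtain ⟨g, hg, hpg⟩ := goodMain.h2 p hp h2 (by omega)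
    obtain ⟨b1, b2, b3⟩ := big_ge
    simp only [grpsMain, List.mem_cons, List.not_mem_nil, or_false] at hg
    rcases hg with rfl | rfl | rfl | rfl | rfl | rfl | rfl | rfl | rfl | rfl | rfl | rfl | rfl
    · exact ⟨(nat_lit 15, ps1), mem10 0 _ rfl, hpg⟩
    · exact ⟨(nat_lit 14, ps2), mem10 1 _ rfl, hpg⟩
    · exact ⟨(nat_lit 13, ps3), mem10 2 _ rfl, hpg⟩
    · exact ⟨(nat_lit 12, ps4), mem10 3 _ rfl, hpg⟩
    · exact ⟨(nat_lit 11, ps5), mem10 4 _ rfl, hpg⟩
    · exact ⟨(nat_lit 10, ps6), mem10 5 _ rfl, hpg⟩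
    · exact ⟨(nat_lit 9, ps7), mem10 6 _ rfl, hpg⟩
    · exact ⟨(nat_lit 8, ps8), mem10 7 _ rfl, hpg⟩
    · exact ⟨(nat_lit 7, ps9), mem10 8 _ rfl, hpg⟩
    · exact ⟨(nat_lit 6, ps10), mem10 9 _ rfl, hpg⟩
    · exact absurd (b1 p hpg) (by omega)
    · exact absurd (b2 p hpg) (by omega)
    · exact absurd (b3 p hpg) (by omega)

/-- the check of one parity class -/
noncomputable def ck (P off s J R e0 M w : ℕ) (certs : List ℕ) : Bool :=
  Nat.beq (Nat.land (Nat.sub (Nat.pow (nat_lit 2) M) (nat_lit 1))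
    (Nat.lor (sn (outer P off s J R e0 (nat_lit 0))) (excMask w certs (nat_lit 0))))
    (Nat.sub (Nat.pow (nat_lit 2) M) (nat_lit 1))

/-- the check of one block -/
noncomputable def ckBlock (v L off J R J' R' M : ℕ) (cE cO : List ℕ) : Bool :=
  (fun P => Bool.rec (motive := fun _ => Bool) false
    (ck P off (nat_lit 0) J' R' (nat_lit 1) M (Nat.add v (Nat.mul (nat_lit 2) off)) cO)
    (ck P off (nat_lit 1) J R (nat_lit 0) M
      (Nat.add (Nat.add v (Nat.mul (nat_lit 2) off)) (nat_lit 1)) cE))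
  (bitmap v L gs10)

/-- the check of a certificate in a block -/
noncomputable def chkW (w x : ℕ) : Bool :=
  Bool.rec (motive := fun _ => Bool) false
    (Bool.rec (motive := fun _ => Bool) false
      (Nat.beq (Nat.mod (Nat.sub (Nat.div x (nat_lit 17592186044416)) w) (nat_lit 2)) (nat_lit 0))
      (Nat.ble w (Nat.div x (nat_lit 17592186044416))))
    (chk x)

noncomputable def chkAll (w : ℕ) (l : List ℕ) : Bool :=
  List.rec (motive := fun _ => Bool) true
    (fun x _ ih => Bool.rec (motive := fun _ => Bool) false ih (chkW w x)) l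

theorem chkAll_spec (w : ℕ) (l : List ℕ) (h : chkAll w l = true) : ∀ x ∈ l, chkW w x = true := by
  induction l with
  | nil => intro x hx; simp at hx
  | cons y l ih =>
    have hdef : chkAll w (y :: l) = Bool.rec (motive := fun _ => Bool) false (chkAll w l)
      (chkW w y) := rfl
    rw [hdef] at h
    obtain ⟨h1, h2⟩ := rec_false h
    intro x hx
    rcases List.mem_cons.mp hx with rfl | hx
    · exact h1
    · exact ih h2 x hx

theorem two_of_bits (N d1 d2 : ℕ) (h1 : 1 ≤ d1) (h12 : d1 < d2) (hN : d2 * d2 + 1 < 2 * N)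
    (hN2 : 2047 ≤ N) (p1 : (N - d1).Prime) (p2 : (N + d1).Prime) (p3 : (N - d2).Prime)
    (p4 : (N + d2).Prime) : TwoCyc (N - 1) := by
  have h3 : 3 * d2 < N := by
    by_contra hc
    push Not at hc
    have h4 : 2047 ≤ 3 * d2 := by omega
    have h5 : 2047 * d2 ≤ 3 * (d2 * d2) := by
      calc 2047 * d2 ≤ (3 * d2) * d2 := Nat.mul_le_mul_right _ h4
        _ = 3 * (d2 * d2) := by ring
    omega
  have key : ∀ d, 1 ≤ d → d ≤ d2 → (N - d).Prime → (N + d).Prime → Cyc ((N - d) * (N + d)) := by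
    intro d hd hd2 hp hq
    apply cyc_mul' _ _ hp hq (by omega)
    intro hdvd
    have h4 : N + d - 1 = (N - d) + (2 * d - 1) := by omega
    rw [h4, Nat.dvd_add_right (dvd_refl _)] at hdvd
    have := Nat.le_of_dvd (by omega) hdvd
    omega
  have sq' : ∀ d, d ≤ N → (N - d) * (N + d) + d * d = N * N := by
    intro d hd
    obtain ⟨k, rfl⟩ : ∃ k, N = k + d := ⟨N - d, by omega⟩
    rw [Nat.add_sub_cancel]
    ring
  have e : N - 1 + 1 = N := by omega
  have hd2N : d2 ≤ N := by omega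
  have s1 := sq' d1 (by omega)
  have s2 := sq' d2 hd2N
  have s3 : d1 * d1 < d2 * d2 := Nat.mul_lt_mul'' h12 h12
  have s4 : 1 ≤ d1 * d1 := Nat.mul_le_mul h1 h1
  have s5 : (N - 1) * (N - 1) + 2 * N = N * N + 1 := by
    obtain ⟨k, rfl⟩ : ∃ k, N = k + 1 := ⟨N - 1, by omega⟩
    rw [Nat.add_sub_cancel]
    ring
  refine ⟨(N - d2) * (N + d2), (N - d1) * (N + d1), key d2 (by omega) le_rfl p3 p4,
    key d1 h1 h12.le p1 p2, ?_, ?_, ?_⟩
  · rw [sq]; omega
  · omega
  · rw [e, sq]; omega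

theorem bit_XX (P off s e i : ℕ) (h : (XX P off s e).testBit i = true) :
    P.testBit (off - e + i) = true ∧ P.testBit (off + (e + s) + i) = true := by
  have e1 : XX P off s e = (P >>> (off - e)) &&& (P >>> (off + (e + s))) := rfl
  rw [e1, Nat.testBit_and, Bool.and_eq_true, Nat.testBit_shiftRight, Nat.testBit_shiftRight] at h
  exact h

theorem outer_start (P off s i J R e : ℕ)
    (h : (sn (outer P off s J R e 0)).testBit i = true) :
    ∃ e1 e2, e ≤ e1 ∧ e1 < e2 ∧ e2 < e + J * R ∧ (XX P off s e1).testBit i = true ∧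
      (XX P off s e2).testBit i = true := by
  have h0 : sn 0 = 0 := by
    show (0 : ℕ) >>> 65536 = 0
    exact Nat.zero_shiftRight _
  have h1 : ∀ w, fsg w 0 = 0 := fun w => by
    show (0 : ℕ) &&& (2 ^ w - 1) = 0
    exact Nat.zero_and _
  have h2 : fs 0 = 0 := h1 _
  rcases outer_sn P off s i J R e 0 h with h3 | ⟨h3, _⟩ | h3
  · rw [h0] at h3; simp at h3
  · rw [h2] at h3; simp at h3
  · exact h3

theorem ck_spec (P off s J R e0 M w : ℕ) (certs : List ℕ)
    (h : ck P off s J R e0 M w certs = true) (i : ℕ) (hi : i < M) :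
    (sn (outer P off s J R e0 0)).testBit i = true ∨
      ∃ x ∈ certs, (x / 17592186044416 - w) / 2 = i := by
  have h1 : (2 ^ M - 1) &&& ((sn (outer P off s J R e0 0)) ||| (excMask w certs 0)) = 2 ^ M - 1 :=
    Nat.eq_of_beq_eq_true h
  have h2 : (2 ^ M - 1).testBit i = true := by
    rw [Nat.testBit_two_pow_sub_one]; simpa using hi
  rw [← h1, Nat.testBit_and, Bool.and_eq_true, Nat.testBit_or, Bool.or_eq_true] at h2
  rcases h2.2 with h3 | h3
  · exact Or.inl h3
  · rw [excMask_testBit] at h3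
    rcases h3 with h4 | h4
    · simp at h4
    · exact Or.inr h4

theorem block_spec (v L off J R J' R' M : ℕ) (cE cO : List ℕ)
    (hcE : chkAll (v + 2 * off + 1) cE = true) (hcO : chkAll (v + 2 * off) cO = true)
    (hck : ckBlock v L off J R J' R' M cE cO = true)
    (hv : v % 2 = 1) (hlo : 2047 < v) (hL : L ≤ 65536) (hhi : v + 2 * L ≤ 4194305)
    (hML : M + 2 * off + 1 ≤ L) (hE : J * R ≤ off) (hO : J' * R' < off)
    (hdE : (2 * (J * R) - 1) * (2 * (J * R) - 1) + 1 < 2 * (v + 2 * off))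
    (hdO : (2 * (J' * R')) * (2 * (J' * R')) + 1 < 2 * (v + 2 * off)) :
    ∀ N, v + 2 * off ≤ N → N < v + 2 * off + 2 * M → TwoCyc (N - 1) := by
  intro N h1 h2
  have hdef : ckBlock v L off J R J' R' M cE cO = Bool.rec (motive := fun _ => Bool) false
    (ck (bitmap v L gs10) off 0 J' R' 1 M (v + 2 * off) cO)
    (ck (bitmap v L gs10) off 1 J R 0 M (v + 2 * off + 1) cE) := rfl
  rw [hdef] at hck
  obtain ⟨hckE, hckO⟩ := rec_false hck
  have hP : ∀ i, (bitmap v L gs10).testBit i = true → (v + 2 * i).Prime := fun i hi =>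
    ((bitmap_testBit gs10 2047 4194304 L v i (good10 L hL) hv (by omega) hlo
      (by omega)).1 hi).2
  have hcert : ∀ w x i, chkW w x = true → (x / 17592186044416 - w) / 2 = i →
      TwoCyc (w + 2 * i - 1) := by
    intro w x i h3 h4
    have hd : chkW w x = Bool.rec (motive := fun _ => Bool) false
      (Bool.rec (motive := fun _ => Bool) false
        (Nat.beq ((x / 17592186044416 - w) % 2) 0) (Nat.ble w (x / 17592186044416)))
      (chk x) := rfl
    rw [hd] at h3
    obtain ⟨h5, h3⟩ := rec_false h3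
    obtain ⟨h6, h7⟩ := rec_false h3
    have h8 : w ≤ x / 17592186044416 := Nat.le_of_ble_eq_true h6
    have h9 : (x / 17592186044416 - w) % 2 = 0 := Nat.eq_of_beq_eq_true h7
    have h10 := chk_spec x h5
    have : x / 17592186044416 = w + 2 * i := by omega
    rwa [this] at h10
  rcases Nat.even_or_odd' N with ⟨c, hc | hc⟩
  · -- even
    obtain ⟨i, hi⟩ : ∃ i, N = v + 2 * off + 1 + 2 * i := ⟨(N - (v + 2 * off + 1)) / 2, by omega⟩
    rcases ck_spec _ _ _ _ _ _ _ _ _ hckE i (by omega) with h3 | ⟨x, hx, h3⟩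
    · obtain ⟨e1, e2, g1, g2, g3, g4, g5⟩ := outer_start _ _ _ _ _ _ _ h3
      obtain ⟨a1, a2⟩ := bit_XX _ _ _ _ _ g4
      obtain ⟨a3, a4⟩ := bit_XX _ _ _ _ _ g5
      have b1 := hP _ a1
      have b2 := hP _ a2
      have b3 := hP _ a3
      have b4 := hP _ a4
      rw [zero_add] at g3
      have q1 : v + 2 * (off - e1 + i) = N - (2 * e1 + 1) := by omega
      have q2 : v + 2 * (off + (e1 + 1) + i) = N + (2 * e1 + 1) := by omega
      have q3 : v + 2 * (off - e2 + i) = N - (2 * e2 + 1) := by omega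
      have q4 : v + 2 * (off + (e2 + 1) + i) = N + (2 * e2 + 1) := by omega
      rw [q1] at b1
      rw [q2] at b2
      rw [q3] at b3
      rw [q4] at b4
      refine two_of_bits N (2 * e1 + 1) (2 * e2 + 1) (by omega) (by omega) ?_ (by omega) b1 b2 b3 b4
      have hle : 2 * e2 + 1 ≤ 2 * (J * R) - 1 := by omega
      have : (2 * e2 + 1) * (2 * e2 + 1) ≤ (2 * (J * R) - 1) * (2 * (J * R) - 1) :=
        Nat.mul_le_mul hle hle
      omega
    · have := hcert _ x i (chkAll_spec _ _ hcE x hx) h3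
      rwa [← hi] at this
  · -- odd
    obtain ⟨i, hi⟩ : ∃ i, N = v + 2 * off + 2 * i := ⟨(N - (v + 2 * off)) / 2, by omega⟩
    rcases ck_spec _ _ _ _ _ _ _ _ _ hckO i (by omega) with h3 | ⟨x, hx, h3⟩
    · obtain ⟨e1, e2, g1, g2, g3, g4, g5⟩ := outer_start _ _ _ _ _ _ _ h3
      obtain ⟨a1, a2⟩ := bit_XX _ _ _ _ _ g4
      obtain ⟨a3, a4⟩ := bit_XX _ _ _ _ _ g5
      have b1 := hP _ a1
      have b2 := hP _ a2
      have b3 := hP _ a3
      have b4 := hP _ a4
      have q1 : v + 2 * (off - e1 + i) = N - 2 * e1 := by omega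
      have q2 : v + 2 * (off + (e1 + 0) + i) = N + 2 * e1 := by omega
      have q3 : v + 2 * (off - e2 + i) = N - 2 * e2 := by omega
      have q4 : v + 2 * (off + (e2 + 0) + i) = N + 2 * e2 := by omega
      rw [q1] at b1
      rw [q2] at b2
      rw [q3] at b3
      rw [q4] at b4
      refine two_of_bits N (2 * e1) (2 * e2) (by omega) (by omega) ?_ (by omega) b1 b2 b3 b4
      have hle : 2 * e2 ≤ 2 * (J' * R') := by omega
      have : (2 * e2) * (2 * e2) ≤ (2 * (J' * R')) * (2 * (J' * R')) := Nat.mul_le_mul hle hle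
      omega
    · have := hcert _ x i (chkAll_spec _ _ hcO x hx) h3
      rwa [← hi] at this

/-! ### Roots below 3000: primes in the interval -/

noncomputable def chk2 (n x : ℕ) : Bool :=
  Bool.rec (motive := fun _ => Bool) false
    (Bool.rec (motive := fun _ => Bool) false
      (Bool.rec (motive := fun _ => Bool) false
        (Bool.rec (motive := fun _ => Bool) false
          (isP (Nat.add (Nat.mul n n) (Nat.mod x (nat_lit 8192))))
          (isP (Nat.add (Nat.mul n n) (Nat.div x (nat_lit 8192)))))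
        (Nat.ble (Nat.mod x (nat_lit 8192)) (Nat.mul (nat_lit 2) n)))
      (Nat.ble (Nat.add (Nat.div x (nat_lit 8192)) (nat_lit 1)) (Nat.mod x (nat_lit 8192))))
    (Nat.ble (nat_lit 1) (Nat.div x (nat_lit 8192)))

noncomputable def chk2All (l : List ℕ) : ℕ → Bool :=
  List.rec (motive := fun _ => ℕ → Bool) (fun _ => true)
    (fun x _ ih n => Bool.rec (motive := fun _ => Bool) false (ih (Nat.add n (nat_lit 1)))
      (chk2 n x)) l

theorem chk2_spec (n x : ℕ) (h : chk2 n x = true) : TwoCyc n := by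
  have hdef : chk2 n x = Bool.rec (motive := fun _ => Bool) false
    (Bool.rec (motive := fun _ => Bool) false
      (Bool.rec (motive := fun _ => Bool) false
        (Bool.rec (motive := fun _ => Bool) false
          (isP (n * n + x % 8192)) (isP (n * n + x / 8192)))
        (Nat.ble (x % 8192) (2 * n)))
      (Nat.ble (x / 8192 + 1) (x % 8192)))
    (Nat.ble 1 (x / 8192)) := rfl
  rw [hdef] at h
  obtain ⟨h1, h⟩ := rec_false h
  obtain ⟨h2, h⟩ := rec_false h
  obtain ⟨h3, h⟩ := rec_false h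
  obtain ⟨h4, h5⟩ := rec_false h
  have g1 : 1 ≤ x / 8192 := Nat.le_of_ble_eq_true h1
  have g2 : x / 8192 + 1 ≤ x % 8192 := Nat.le_of_ble_eq_true h2
  have g3 : x % 8192 ≤ 2 * n := Nat.le_of_ble_eq_true h3
  refine ⟨n * n + x / 8192, n * n + x % 8192, cyc_prime _ (isP_prime _ h4),
    cyc_prime _ (isP_prime _ h5), by rw [sq]; omega, by omega, ?_⟩
  have : (n + 1) ^ 2 = n * n + 2 * n + 1 := by ring
  omega

theorem chk2All_spec (l : List ℕ) (n : ℕ) (h : chk2All l n = true) :
    ∀ k, n ≤ k → k < n + l.length → TwoCyc k := by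
  induction l generalizing n with
  | nil => intro k h1 h2; simp at h2; omega
  | cons y l ih =>
    have hdef : chk2All (y :: l) n = Bool.rec (motive := fun _ => Bool) false
      (chk2All l (n + 1)) (chk2 n y) := rfl
    rw [hdef] at h
    obtain ⟨h1, h2⟩ := rec_false h
    intro k hk hk2
    rcases Nat.eq_or_lt_of_le hk with h3 | h3
    · subst h3; exact chk2_spec _ _ h1
    · exact ih (n + 1) h2 k h3 (by simp at hk2; omega)

end Pool.Agent.Helper69.TC
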