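import Pool.Agent.Helper69.TC.Block

set_option autoImplicit false

namespace Pool.Agent.Helper69.TC

open Pool.Agent.Helper9.TC Pool.Agent.Helper52.PS

/-! ### Block 28: roots `494164 ≤ n < 592996` -/

def cE28 : List ℕ := [nat_lit 8737018466021671083, nat_lit 8751268134519833589, nat_lit 8833986592344376347,
  nat_lit 8836132840098759675, nat_lit 8993266248506671119, nat_lit 8996116182025109765,
  nat_lit 8996960604941976639, nat_lit 8997593922431616027, nat_lit 9000971624920384523,
  nat_lit 9006988150811132961, nat_lit 9038020768906084847, nat_lit 9134812976849617169,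
  nat_lit 9214188917136294947, nat_lit 9307286768501916569, nat_lit 9416780534417195683,
  nat_lit 9610576057400821031, nat_lit 9618774014604345641, nat_lit 9744909988593140417,
  nat_lit 9815876867071149001, nat_lit 9921007770973241701, nat_lit 9968154829572276281,
  nat_lit 9973960248777507957, nat_lit 9975015782129598839, nat_lit 9984234085125457023,
  nat_lit 10197029170085626771, nat_lit 10219265692037809385, nat_lit 10376680574608736343,
  nat_lit 10385969248051659445, nat_lit 10390367291542864989]

def cO28 : List ℕ := [nat_lit 8819508225985479810, nat_lit 8846177977386402812, nat_lit 8856451814917145706,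
  nat_lit 9051689897642950896, nat_lit 9064884036555506742, nat_lit 9065939567466513414,
  nat_lit 9355190291113443880, nat_lit 9447830743100162072, nat_lit 9604260459620336762,
  nat_lit 9604928962513863714, nat_lit 9636172684022776884, nat_lit 9686838182498271256,
  nat_lit 9730114958783415384, nat_lit 9791089475638527024, nat_lit 9807802053764842462,
  nat_lit 9819412894817715318, nat_lit 9866982167341434158, nat_lit 9873843120125248208,
  nat_lit 9887811315567690888, nat_lit 9920638334978228404, nat_lit 9930454773180400686,
  nat_lit 9968418712425857774, nat_lit 9987629378504229962, nat_lit 10096384274400805976,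
  nat_lit 10107115507200033734, nat_lit 10164430849282408880, nat_lit 10197504158894916556,
  nat_lit 10200635568086319134, nat_lit 10270335809143963828, nat_lit 10388203455641552018]

theorem hE28 : chkAll (nat_lit 494166) cE28 = true := by decide +kernel

theorem hO28 : chkAll (nat_lit 494165) cO28 = true := by decide +kernel

theorem hB28 : ckBlock (nat_lit 493171) (nat_lit 50411) (nat_lit 497) (nat_lit 31) (nat_lit 16)
    (nat_lit 31) (nat_lit 16) (nat_lit 49416) cE28 cO28 = true := by decide +kernel

theorem blk28 : ∀ n, 494164 ≤ n → n < 592996 → TwoCyc n := by
  intro n h1 h2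
  have h := block_spec 493171 50411 497 31 16 31 16 49416 cE28 cO28 hE28 hO28 hB28 (by norm_num) (by norm_num)
    (by norm_num) (by norm_num) (by norm_num) (by norm_num) (by norm_num) (by norm_num)
    (by norm_num) (n + 1) (by omega) (by omega)
  simpa using h

/-! ### Block 29: roots `592996 ≤ n < 711594` -/

def cE29 : List ℕ := [nat_lit 10653440845232996583, nat_lit 10749247888258237527, nat_lit 10760330964308591745,
  nat_lit 10895333403134001413, nat_lit 11018021308557427333, nat_lit 11020941610333504637,
  nat_lit 11035507941510742211, nat_lit 11058835180406964359, nat_lit 11060312923908866255,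
  nat_lit 11075125542066848913, nat_lit 11086630834130649889, nat_lit 11212837176913953143,
  nat_lit 11233208928353386529, nat_lit 11460570339960947855, nat_lit 11754359844990092433,
  nat_lit 11916383882242425291, nat_lit 12027742418813059723, nat_lit 12156306114652144183,
  nat_lit 12166017001247998693, nat_lit 12309745159167280293]

def cO29 : List ℕ := [nat_lit 10510222858892869716, nat_lit 10514656089675399306, nat_lit 10551318205811393142,
  nat_lit 10616655584981681336, nat_lit 10617816668832793718, nat_lit 10626683129483494566,
  nat_lit 10894858415423619354, nat_lit 11004105889484374418, nat_lit 11022894341461902440,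
  nat_lit 11060365700404085408, nat_lit 11212573294060372766, nat_lit 11226224829348709542,
  nat_lit 11231783960163910766, nat_lit 11238891202268890236, nat_lit 11557556062877909214,
  nat_lit 11559456015439103118, nat_lit 11752794140646048956, nat_lit 11889203953725866878,
  nat_lit 11913481170727206948, nat_lit 11916436657672291102, nat_lit 12136901930890822838,
  nat_lit 12165858672727032540, nat_lit 12172614071077569046, nat_lit 12285837380484595910,
  nat_lit 12326264224585089168, nat_lit 12360393064110359988]

theorem hE29 : chkAll (nat_lit 592998) cE29 = true := by decide +kernel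

theorem hO29 : chkAll (nat_lit 592997) cO29 = true := by decide +kernel

theorem hB29 : ckBlock (nat_lit 591907) (nat_lit 60390) (nat_lit 545) (nat_lit 32) (nat_lit 17)
    (nat_lit 32) (nat_lit 17) (nat_lit 59299) cE29 cO29 = true := by decide +kernel

theorem blk29 : ∀ n, 592996 ≤ n → n < 711594 → TwoCyc n := by
  intro n h1 h2
  have h := block_spec 591907 60390 545 32 17 32 17 59299 cE29 cO29 hE29 hO29 hB29 (by norm_num) (by norm_num)
    (by norm_num) (by norm_num) (by norm_num) (by norm_num) (by norm_num) (by norm_num)
    (by norm_num) (n + 1) (by omega) (by omega)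
  simpa using h

/-! ### Block 30: roots `711594 ≤ n < 840280` -/

def cE30 : List ℕ := [nat_lit 12540800933065392149, nat_lit 12615039955907904747, nat_lit 12617573233198105811,
  nat_lit 12633089542220415525, nat_lit 13089079003585708257, nat_lit 13117543158986573031,
  nat_lit 13314857115748140243, nat_lit 13543801828302389335, nat_lit 13677432073579659363,
  nat_lit 13770952134457557451, nat_lit 14110622062401815823, nat_lit 14218814008923783903,
  nat_lit 14280738500193027341, nat_lit 14322994931122046379, nat_lit 14558870963660784909,
  nat_lit 14559398728520696045]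

def cO30 : List ℕ := [nat_lit 12645773503958615286, nat_lit 13036671880256292264, nat_lit 13090926182570919402,
  nat_lit 13214739989167866006, nat_lit 13304319398685705534, nat_lit 13595786736364946736,
  nat_lit 14381313029818024236, nat_lit 14417799221652489560, nat_lit 14576375188292633566,
  nat_lit 14684567132339962738]

theorem hE30 : chkAll (nat_lit 711596) cE30 = true := by decide +kernel

theorem hO30 : chkAll (nat_lit 711595) cO30 = true := by decide +kernel

theorem hB30 : ckBlock (nat_lit 710403) (nat_lit 65536) (nat_lit 596) (nat_lit 35) (nat_lit 17)
    (nat_lit 35) (nat_lit 17) (nat_lit 64343) cE30 cO30 = true := by decide +kernel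

theorem blk30 : ∀ n, 711594 ≤ n → n < 840280 → TwoCyc n := by
  intro n h1 h2
  have h := block_spec 710403 65536 596 35 17 35 17 64343 cE30 cO30 hE30 hO30 hB30 (by norm_num) (by norm_num)
    (by norm_num) (by norm_num) (by norm_num) (by norm_num) (by norm_num) (by norm_num)
    (by norm_num) (n + 1) (by omega) (by omega)
  simpa using h

/-! ### Block 31: roots `840280 ≤ n < 968754` -/

def cE31 : List ℕ := [nat_lit 15019751053870498275, nat_lit 15020278820055810663, nat_lit 15286237487786098919,
  nat_lit 15359491349745239415, nat_lit 15565882874757383565, nat_lit 15907312020651771209,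
  nat_lit 16468362022367528513, nat_lit 16511638795926373743, nat_lit 16760005280917358109,
  nat_lit 16884839433415688651]

def cO31 : List ℕ := [nat_lit 14797192305609540906, nat_lit 15098827927980082482, nat_lit 15352472065185678710,
  nat_lit 15433466489809667406, nat_lit 15573852135576569202, nat_lit 15783339888931242266,
  nat_lit 16076284970640868288, nat_lit 16314940564304823642, nat_lit 16341962163931317726,
  nat_lit 16471159176001750380, nat_lit 16972184637482729508]

theorem hE31 : chkAll (nat_lit 840282) cE31 = true := by decide +kernel

theorem hO31 : chkAll (nat_lit 840281) cO31 = true := by decide +kernel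

theorem hB31 : ckBlock (nat_lit 838983) (nat_lit 65536) (nat_lit 649) (nat_lit 27) (nat_lit 24)
    (nat_lit 27) (nat_lit 24) (nat_lit 64237) cE31 cO31 = true := by decide +kernel

theorem blk31 : ∀ n, 840280 ≤ n → n < 968754 → TwoCyc n := by
  intro n h1 h2
  have h := block_spec 838983 65536 649 27 24 27 24 64237 cE31 cO31 hE31 hO31 hB31 (by norm_num) (by norm_num)
    (by norm_num) (by norm_num) (by norm_num) (by norm_num) (by norm_num) (by norm_num)
    (by norm_num) (n + 1) (by omega) (by omega)
  simpa using h

/-! ### Block 32: roots `968754 ≤ n < 1097040` -/

def cE32 : List ℕ := [nat_lit 18675125836650120675, nat_lit 18972398595220702659, nat_lit 19203313632955859049]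

def cO32 : List ℕ := [nat_lit 17404107989278786406, nat_lit 17674535071819761056, nat_lit 17858760442315277730,
  nat_lit 17971772648736161912, nat_lit 18271262025147482322, nat_lit 18272845320524137546,
  nat_lit 18544644597032683196, nat_lit 18705613097141274036]

theorem hE32 : chkAll (nat_lit 968756) cE32 = true := by decide +kernel

theorem hO32 : chkAll (nat_lit 968755) cO32 = true := by decide +kernel

theorem hB32 : ckBlock (nat_lit 967363) (nat_lit 65536) (nat_lit 696) (nat_lit 29) (nat_lit 24)
    (nat_lit 33) (nat_lit 21) (nat_lit 64143) cE32 cO32 = true := by decide +kernel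

theorem blk32 : ∀ n, 968754 ≤ n → n < 1097040 → TwoCyc n := by
  intro n h1 h2
  have h := block_spec 967363 65536 696 29 24 33 21 64143 cE32 cO32 hE32 hO32 hB32 (by norm_num) (by norm_num)
    (by norm_num) (by norm_num) (by norm_num) (by norm_num) (by norm_num) (by norm_num)
    (by norm_num) (n + 1) (by omega) (by omega)
  simpa using h

/-! ### Block 33: roots `1097040 ≤ n < 1225146` -/

def cE33 : List ℕ := [nat_lit 20070010268615181827, nat_lit 20404543281740908067, nat_lit 20868836255640584777,
  nat_lit 21539239280515220671]

def cO33 : List ℕ := [nat_lit 21048012669383082434]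

theorem hE33 : chkAll (nat_lit 1097042) cE33 = true := by decide +kernel

theorem hO33 : chkAll (nat_lit 1097041) cO33 = true := by decide +kernel

theorem hB33 : ckBlock (nat_lit 1095559) (nat_lit 65536) (nat_lit 741) (nat_lit 39) (nat_lit 19)
    (nat_lit 37) (nat_lit 20) (nat_lit 64053) cE33 cO33 = true := by decide +kernel

theorem blk33 : ∀ n, 1097040 ≤ n → n < 1225146 → TwoCyc n := by
  intro n h1 h2
  have h := block_spec 1095559 65536 741 39 19 37 20 64053 cE33 cO33 hE33 hO33 hB33 (by norm_num) (by norm_num)
    (by norm_num) (by norm_num) (by norm_num) (by norm_num) (by norm_num) (by norm_num)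
    (by norm_num) (n + 1) (by omega) (by omega)
  simpa using h

end Pool.Agent.Helper69.TC
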