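import Pool.Agent.Helper69.TC.Block

set_option autoImplicit false

namespace Pool.Agent.Helper69.TC

open Pool.Agent.Helper9.TC Pool.Agent.Helper52.PS

/-! ### Block 34: roots `1225146 ≤ n < 1353084` -/

def cE34 : List ℕ := [nat_lit 21590502911168741661, nat_lit 21844182234071826927, nat_lit 23715955644464889889]

def cO34 : List ℕ := [nat_lit 21689916354333770040, nat_lit 21748392777339635340]

theorem hE34 : chkAll (nat_lit 1225148) cE34 = true := by decide +kernel

theorem hO34 : chkAll (nat_lit 1225147) cO34 = true := by decide +kernel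

theorem hB34 : ckBlock (nat_lit 1223581) (nat_lit 65536) (nat_lit 783) (nat_lit 29) (nat_lit 27)
    (nat_lit 34) (nat_lit 23) (nat_lit 63969) cE34 cO34 = true := by decide +kernel

theorem blk34 : ∀ n, 1225146 ≤ n → n < 1353084 → TwoCyc n := by
  intro n h1 h2
  have h := block_spec 1223581 65536 783 29 27 34 23 63969 cE34 cO34 hE34 hO34 hB34 (by norm_num) (by norm_num)
    (by norm_num) (by norm_num) (by norm_num) (by norm_num) (by norm_num) (by norm_num)
    (by norm_num) (n + 1) (by omega) (by omega)
  simpa using h

/-! ### Block 35: roots `1353084 ≤ n < 1480870` -/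

def cE35 : List ℕ := [nat_lit 23825519776809092799, nat_lit 24904870756559619767]

def cO35 : List ℕ := [nat_lit 23812061757249160826, nat_lit 24303728168657749662, nat_lit 24332755278172784262,
  nat_lit 24684247156623672990]

theorem hE35 : chkAll (nat_lit 1353086) cE35 = true := by decide +kernel

theorem hO35 : chkAll (nat_lit 1353085) cO35 = true := by decide +kernel

theorem hB35 : ckBlock (nat_lit 1351443) (nat_lit 65536) (nat_lit 821) (nat_lit 41) (nat_lit 20)
    (nat_lit 41) (nat_lit 20) (nat_lit 63893) cE35 cO35 = true := by decide +kernel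

theorem blk35 : ∀ n, 1353084 ≤ n → n < 1480870 → TwoCyc n := by
  intro n h1 h2
  have h := block_spec 1351443 65536 821 41 20 41 20 63893 cE35 cO35 hE35 hO35 hB35 (by norm_num) (by norm_num)
    (by norm_num) (by norm_num) (by norm_num) (by norm_num) (by norm_num) (by norm_num)
    (by norm_num) (n + 1) (by omega) (by omega)
  simpa using h

/-! ### Block 36: roots `1480870 ≤ n < 1608496` -/

def cE36 : List ℕ := []

def cO36 : List ℕ := []

theorem hE36 : chkAll (nat_lit 1480872) cE36 = true := by decide +kernel

theorem hO36 : chkAll (nat_lit 1480871) cO36 = true := by decide +kernel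

theorem hB36 : ckBlock (nat_lit 1479149) (nat_lit 65536) (nat_lit 861) (nat_lit 43) (nat_lit 20)
    (nat_lit 43) (nat_lit 20) (nat_lit 63813) cE36 cO36 = true := by decide +kernel

theorem blk36 : ∀ n, 1480870 ≤ n → n < 1608496 → TwoCyc n := by
  intro n h1 h2
  have h := block_spec 1479149 65536 861 43 20 43 20 63813 cE36 cO36 hE36 hO36 hB36 (by norm_num) (by norm_num)
    (by norm_num) (by norm_num) (by norm_num) (by norm_num) (by norm_num) (by norm_num)
    (by norm_num) (n + 1) (by omega) (by omega)
  simpa using h

/-! ### Block 37: roots `1608496 ≤ n < 1735978` -/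

def cE37 : List ℕ := []

def cO37 : List ℕ := [nat_lit 28457946981488134004, nat_lit 28849584226227455838]

theorem hE37 : chkAll (nat_lit 1608498) cE37 = true := by decide +kernel

theorem hO37 : chkAll (nat_lit 1608497) cO37 = true := by decide +kernel

theorem hB37 : ckBlock (nat_lit 1606703) (nat_lit 65536) (nat_lit 897) (nat_lit 39) (nat_lit 23)
    (nat_lit 32) (nat_lit 28) (nat_lit 63741) cE37 cO37 = true := by decide +kernel

theorem blk37 : ∀ n, 1608496 ≤ n → n < 1735978 → TwoCyc n := by
  intro n h1 h2
  have h := block_spec 1606703 65536 897 39 23 32 28 63741 cE37 cO37 hE37 hO37 hB37 (by norm_num) (by norm_num)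
    (by norm_num) (by norm_num) (by norm_num) (by norm_num) (by norm_num) (by norm_num)
    (by norm_num) (n + 1) (by omega) (by omega)
  simpa using h

/-! ### Block 38: roots `1735978 ≤ n < 1863320` -/

def cE38 : List ℕ := []

def cO38 : List ℕ := []

theorem hE38 : chkAll (nat_lit 1735980) cE38 = true := by decide +kernel

theorem hO38 : chkAll (nat_lit 1735979) cO38 = true := by decide +kernel

theorem hB38 : ckBlock (nat_lit 1734115) (nat_lit 65536) (nat_lit 932) (nat_lit 49) (nat_lit 19)
    (nat_lit 49) (nat_lit 19) (nat_lit 63671) cE38 cO38 = true := by decide +kernel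

theorem blk38 : ∀ n, 1735978 ≤ n → n < 1863320 → TwoCyc n := by
  intro n h1 h2
  have h := block_spec 1734115 65536 932 49 19 49 19 63671 cE38 cO38 hE38 hO38 hB38 (by norm_num) (by norm_num)
    (by norm_num) (by norm_num) (by norm_num) (by norm_num) (by norm_num) (by norm_num)
    (by norm_num) (n + 1) (by omega) (by omega)
  simpa using h

/-! ### Block 39: roots `1863320 ≤ n < 1990538` -/

def cE39 : List ℕ := []

def cO39 : List ℕ := []

theorem hE39 : chkAll (nat_lit 1863322) cE39 = true := by decide +kernel

theorem hO39 : chkAll (nat_lit 1863321) cO39 = true := by decide +kernel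

theorem hB39 : ckBlock (nat_lit 1861395) (nat_lit 65536) (nat_lit 963) (nat_lit 37) (nat_lit 26)
    (nat_lit 37) (nat_lit 26) (nat_lit 63609) cE39 cO39 = true := by decide +kernel

theorem blk39 : ∀ n, 1863320 ≤ n → n < 1990538 → TwoCyc n := by
  intro n h1 h2
  have h := block_spec 1861395 65536 963 37 26 37 26 63609 cE39 cO39 hE39 hO39 hB39 (by norm_num) (by norm_num)
    (by norm_num) (by norm_num) (by norm_num) (by norm_num) (by norm_num) (by norm_num)
    (by norm_num) (n + 1) (by omega) (by omega)
  simpa using h

/-! ### Block 40: roots `1990538 ≤ n < 2000002` -/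

def cE40 : List ℕ := []

def cO40 : List ℕ := []

theorem hE40 : chkAll (nat_lit 1990540) cE40 = true := by decide +kernel

theorem hO40 : chkAll (nat_lit 1990539) cO40 = true := by decide +kernel

theorem hB40 : ckBlock (nat_lit 1988553) (nat_lit 6719) (nat_lit 993) (nat_lit 32) (nat_lit 31)
    (nat_lit 32) (nat_lit 31) (nat_lit 4732) cE40 cO40 = true := by decide +kernel

theorem blk40 : ∀ n, 1990538 ≤ n → n < 2000002 → TwoCyc n := by
  intro n h1 h2
  have h := block_spec 1988553 6719 993 32 31 32 31 4732 cE40 cO40 hE40 hO40 hB40 (by norm_num) (by norm_num)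
    (by norm_num) (by norm_num) (by norm_num) (by norm_num) (by norm_num) (by norm_num)
    (by norm_num) (n + 1) (by omega) (by omega)
  simpa using h

end Pool.Agent.Helper69.TC
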