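import Pool.Agent.Helper69.TC.Block

set_option autoImplicit false

namespace Pool.Agent.Helper69.TC

open Pool.Agent.Helper9.TC Pool.Agent.Helper52.PS

/-! ### Roots `8 ≤ n < 3000` -/

def tl0 : List ℕ := [nat_lit 24583, nat_lit 16392, nat_lit 8195, nat_lit 49162, nat_lit 40967, nat_lit 32778,
  nat_lit 8195, nat_lit 16388, nat_lit 8199, nat_lit 32786, nat_lit 57357, nat_lit 49164,
  nat_lit 8201, nat_lit 16392, nat_lit 24583, nat_lit 98322, nat_lit 8203, nat_lit 49168,
  nat_lit 8199, nat_lit 32778, nat_lit 24589, nat_lit 98320, nat_lit 57355, nat_lit 49162,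
  nat_lit 57353, nat_lit 16388, nat_lit 57359, nat_lit 32774, nat_lit 8197, nat_lit 32780,
  nat_lit 24583, nat_lit 16394, nat_lit 8199, nat_lit 98320, nat_lit 106515, nat_lit 98322,
  nat_lit 106511, nat_lit 16388, nat_lit 106511, nat_lit 32780, nat_lit 40967, nat_lit 81936,
  nat_lit 24597, nat_lit 65552, nat_lit 24583, nat_lit 81944, nat_lit 8203, nat_lit 98320,
  nat_lit 8219, nat_lit 16388, nat_lit 57353, nat_lit 81938, nat_lit 57357, nat_lit 49164,
  nat_lit 24583, nat_lit 163872, nat_lit 24591, nat_lit 32774, nat_lit 8199, nat_lit 32786,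
  nat_lit 106511, nat_lit 180250, nat_lit 24585, nat_lit 81938, nat_lit 40973, nat_lit 32786,
  nat_lit 8195, nat_lit 114704, nat_lit 24583, nat_lit 81944, nat_lit 40967, nat_lit 49168,
  nat_lit 172059, nat_lit 16392, nat_lit 73741, nat_lit 81938, nat_lit 8205, nat_lit 32780,
  nat_lit 122901, nat_lit 32776, nat_lit 73741, nat_lit 49164, nat_lit 8203, nat_lit 49162,
  nat_lit 24613, nat_lit 114708, nat_lit 8195, nat_lit 32784, nat_lit 40971, nat_lit 32778,
  nat_lit 73743, nat_lit 16394, nat_lit 57353, nat_lit 81942, nat_lit 188441, nat_lit 32786,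
  nat_lit 122901, nat_lit 16406, nat_lit 24583, nat_lit 147478, nat_lit 106513, nat_lit 49168,
  nat_lit 8199, nat_lit 16392, nat_lit 24585, nat_lit 98326, nat_lit 40967, nat_lit 32784,
  nat_lit 8199, nat_lit 16388, nat_lit 57353, nat_lit 98320, nat_lit 8199, nat_lit 98320,
  nat_lit 24583, nat_lit 16392, nat_lit 8199, nat_lit 32784, nat_lit 8197, nat_lit 81932,
  nat_lit 221217, nat_lit 65546, nat_lit 8195, nat_lit 49174, nat_lit 57363, nat_lit 147480,
  nat_lit 8195, nat_lit 32776, nat_lit 57365, nat_lit 32786, nat_lit 57369, nat_lit 98356,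
  nat_lit 24585, nat_lit 65546, nat_lit 73741, nat_lit 229406, nat_lit 57355, nat_lit 49186,
  nat_lit 8195, nat_lit 16388, nat_lit 57369, nat_lit 229422, nat_lit 8203, nat_lit 49162,
  nat_lit 106523, nat_lit 65558, nat_lit 24601, nat_lit 32786, nat_lit 8215, nat_lit 81942,
  nat_lit 24583, nat_lit 163862, nat_lit 8195, nat_lit 81932, nat_lit 40967, nat_lit 32790,
  nat_lit 57369, nat_lit 114704, nat_lit 204827, nat_lit 32780, nat_lit 41013, nat_lit 81932,
  nat_lit 8201, nat_lit 16394, nat_lit 24591, nat_lit 147486, nat_lit 139295, nat_lit 49164,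
  nat_lit 8199, nat_lit 32776, nat_lit 24591, nat_lit 81936, nat_lit 8203, nat_lit 81938,
  nat_lit 204827, nat_lit 32782, nat_lit 8199, nat_lit 49180, nat_lit 57355, nat_lit 98358,
  nat_lit 73747, nat_lit 65546, nat_lit 57353, nat_lit 98320, nat_lit 57357, nat_lit 32792,
  nat_lit 57357, nat_lit 114710, nat_lit 122911, nat_lit 98328, nat_lit 40973, nat_lit 49170,
  nat_lit 73741, nat_lit 180250, nat_lit 73743, nat_lit 32780, nat_lit 8197, nat_lit 147492,
  nat_lit 8199, nat_lit 32778, nat_lit 57363, nat_lit 81950, nat_lit 8203, nat_lit 81932,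
  nat_lit 73743, nat_lit 65556, nat_lit 172057, nat_lit 32780, nat_lit 57367, nat_lit 32790,
  nat_lit 24585, nat_lit 16392, nat_lit 57353, nat_lit 49168, nat_lit 106519, nat_lit 81932,
  nat_lit 8223, nat_lit 16406, nat_lit 270391, nat_lit 81942, nat_lit 57369, nat_lit 98320,
  nat_lit 8195, nat_lit 131092, nat_lit 57369, nat_lit 32790, nat_lit 90129, nat_lit 32786,
  nat_lit 8207, nat_lit 16394, nat_lit 122899, nat_lit 81938, nat_lit 8229, nat_lit 147484,
  nat_lit 24585, nat_lit 16388, nat_lit 24597, nat_lit 32780, nat_lit 40971, nat_lit 147478,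
  nat_lit 24583, nat_lit 16394, nat_lit 8199, nat_lit 229406, nat_lit 139287, nat_lit 32778,
  nat_lit 303155, nat_lit 16388, nat_lit 8195, nat_lit 147478, nat_lit 40967, nat_lit 180264,
  nat_lit 8199, nat_lit 163866, nat_lit 122905, nat_lit 180248, nat_lit 8205, nat_lit 32780,
  nat_lit 106523, nat_lit 32796, nat_lit 106515, nat_lit 49170, nat_lit 8199, nat_lit 98322,
  nat_lit 122913, nat_lit 16406, nat_lit 24583, nat_lit 32784, nat_lit 253989, nat_lit 32792,
  nat_lit 57377, nat_lit 65558]

theorem hl0 : tl0.length = 272 := by decide +kernel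

theorem ht0 : chk2All tl0 (nat_lit 8) = true := by decide +kernel

def tl1 : List ℕ := [nat_lit 8219, nat_lit 131090, nat_lit 57357, nat_lit 147478, nat_lit 8205, nat_lit 65550,
  nat_lit 24597, nat_lit 32786, nat_lit 155685, nat_lit 131108, nat_lit 172059, nat_lit 81936,
  nat_lit 270375, nat_lit 32808, nat_lit 40977, nat_lit 98320, nat_lit 57357, nat_lit 16398,
  nat_lit 24583, nat_lit 98320, nat_lit 8199, nat_lit 131090, nat_lit 204833, nat_lit 16388,
  nat_lit 24591, nat_lit 180252, nat_lit 8239, nat_lit 32780, nat_lit 73753, nat_lit 16410,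
  nat_lit 303153, nat_lit 81936, nat_lit 188441, nat_lit 32786, nat_lit 8217, nat_lit 65552,
  nat_lit 24591, nat_lit 32780, nat_lit 139289, nat_lit 81948, nat_lit 57353, nat_lit 16392,
  nat_lit 24591, nat_lit 147496, nat_lit 90135, nat_lit 196636, nat_lit 8195, nat_lit 65556,
  nat_lit 122899, nat_lit 49174, nat_lit 57361, nat_lit 49170, nat_lit 73741, nat_lit 81940,
  nat_lit 172057, nat_lit 98320, nat_lit 40973, nat_lit 180276, nat_lit 122905, nat_lit 163886,
  nat_lit 8195, nat_lit 98352, nat_lit 40977, nat_lit 81942, nat_lit 57369, nat_lit 16392,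
  nat_lit 57365, nat_lit 32786, nat_lit 155683, nat_lit 344116, nat_lit 8195, nat_lit 16392,
  nat_lit 57363, nat_lit 196642, nat_lit 106519, nat_lit 49164, nat_lit 24583, nat_lit 32800,
  nat_lit 73753, nat_lit 180266, nat_lit 57373, nat_lit 131094, nat_lit 122899, nat_lit 16392,
  nat_lit 24591, nat_lit 131100, nat_lit 57355, nat_lit 81938, nat_lit 24583, nat_lit 16400,
  nat_lit 352305, nat_lit 98322, nat_lit 40977, nat_lit 32808, nat_lit 57359, nat_lit 16388,
  nat_lit 172059, nat_lit 180252, nat_lit 106515, nat_lit 81932, nat_lit 57353, nat_lit 131104,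
  nat_lit 57353, nat_lit 98334, nat_lit 8217, nat_lit 32786, nat_lit 8207, nat_lit 16406,
  nat_lit 57359, nat_lit 131090, nat_lit 90135, nat_lit 131090, nat_lit 204837, nat_lit 81958,
  nat_lit 122913, nat_lit 131106, nat_lit 8199, nat_lit 147484, nat_lit 24591, nat_lit 65558,
  nat_lit 8201, nat_lit 49164, nat_lit 57367, nat_lit 32778, nat_lit 57371, nat_lit 114714,
  nat_lit 8195, nat_lit 32786, nat_lit 57367, nat_lit 229406, nat_lit 73755, nat_lit 131094,
  nat_lit 57353, nat_lit 81954, nat_lit 40967, nat_lit 147490, nat_lit 24601, nat_lit 16392,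
  nat_lit 106521, nat_lit 98344, nat_lit 8205, nat_lit 131100, nat_lit 57353, nat_lit 16388,
  nat_lit 24601, nat_lit 32790, nat_lit 188441, nat_lit 32778, nat_lit 57363, nat_lit 16400,
  nat_lit 8195, nat_lit 49180, nat_lit 40983, nat_lit 147480, nat_lit 24589, nat_lit 32782,
  nat_lit 8217, nat_lit 81948, nat_lit 139319, nat_lit 131094, nat_lit 8195, nat_lit 16410,
  nat_lit 204837, nat_lit 180252, nat_lit 8203, nat_lit 49170, nat_lit 106517, nat_lit 16388,
  nat_lit 73747, nat_lit 81942, nat_lit 155677, nat_lit 131090, nat_lit 57359, nat_lit 16388,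
  nat_lit 57381, nat_lit 32780, nat_lit 40971, nat_lit 229416, nat_lit 24583, nat_lit 229408,
  nat_lit 155687, nat_lit 294952, nat_lit 40977, nat_lit 32780, nat_lit 8205, nat_lit 65570,
  nat_lit 8199, nat_lit 147478, nat_lit 57361, nat_lit 81936, nat_lit 8195, nat_lit 65568,
  nat_lit 24583, nat_lit 147480, nat_lit 8199, nat_lit 32780, nat_lit 204833, nat_lit 16388,
  nat_lit 204827, nat_lit 147484, nat_lit 254001, nat_lit 49170, nat_lit 73761, nat_lit 32776,
  nat_lit 24591, nat_lit 49168, nat_lit 90125, nat_lit 32778, nat_lit 57357, nat_lit 131098,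
  nat_lit 8201, nat_lit 98340, nat_lit 40979, nat_lit 196636, nat_lit 57395, nat_lit 32776,
  nat_lit 8225, nat_lit 180282, nat_lit 139293, nat_lit 131108, nat_lit 57357, nat_lit 16416,
  nat_lit 73741, nat_lit 32808, nat_lit 40971, nat_lit 147480, nat_lit 106517, nat_lit 32788,
  nat_lit 24613, nat_lit 147496, nat_lit 90149, nat_lit 49198, nat_lit 24583, nat_lit 16398,
  nat_lit 122905, nat_lit 49168, nat_lit 40973, nat_lit 81932, nat_lit 155727, nat_lit 131094,
  nat_lit 57365, nat_lit 81942, nat_lit 188465, nat_lit 180264, nat_lit 24583, nat_lit 131098,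
  nat_lit 253997, nat_lit 98322, nat_lit 139287, nat_lit 49168, nat_lit 73741, nat_lit 81948,
  nat_lit 24603, nat_lit 32790, nat_lit 40983, nat_lit 147480, nat_lit 8217, nat_lit 114708,
  nat_lit 73747, nat_lit 49162, nat_lit 155695, nat_lit 98326, nat_lit 24585, nat_lit 81940,
  nat_lit 8199, nat_lit 196644, nat_lit 303145, nat_lit 32798, nat_lit 106511, nat_lit 16392,
  nat_lit 57357, nat_lit 98320]

theorem hl1 : tl1.length = 272 := by decide +kernel

theorem ht1 : chk2All tl1 (nat_lit 280) = true := by decide +kernel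

def tl2 : List ℕ := [nat_lit 40979, nat_lit 98334, nat_lit 24601, nat_lit 16400, nat_lit 8213, nat_lit 196642,
  nat_lit 57373, nat_lit 229412, nat_lit 24589, nat_lit 16410, nat_lit 57357, nat_lit 180258,
  nat_lit 57355, nat_lit 98338, nat_lit 172063, nat_lit 163898, nat_lit 24583, nat_lit 49180,
  nat_lit 8223, nat_lit 131094, nat_lit 73747, nat_lit 16388, nat_lit 106523, nat_lit 131090,
  nat_lit 8197, nat_lit 32786, nat_lit 73743, nat_lit 65556, nat_lit 24595, nat_lit 180270,
  nat_lit 57367, nat_lit 147510, nat_lit 8195, nat_lit 65550, nat_lit 122907, nat_lit 147486,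
  nat_lit 40973, nat_lit 98322, nat_lit 401471, nat_lit 81942, nat_lit 319545, nat_lit 32780,
  nat_lit 8197, nat_lit 49164, nat_lit 368721, nat_lit 262178, nat_lit 57353, nat_lit 81948,
  nat_lit 57367, nat_lit 81932, nat_lit 24591, nat_lit 16394, nat_lit 106533, nat_lit 32774,
  nat_lit 57367, nat_lit 32790, nat_lit 73767, nat_lit 16394, nat_lit 57365, nat_lit 49170,
  nat_lit 106539, nat_lit 32778, nat_lit 122905, nat_lit 32782, nat_lit 24619, nat_lit 147480,
  nat_lit 106515, nat_lit 81938, nat_lit 24583, nat_lit 131092, nat_lit 24583, nat_lit 32798,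
  nat_lit 40983, nat_lit 180252, nat_lit 24589, nat_lit 65550, nat_lit 73753, nat_lit 131102,
  nat_lit 155679, nat_lit 81966, nat_lit 73743, nat_lit 114710, nat_lit 8195, nat_lit 131090,
  nat_lit 8203, nat_lit 98334, nat_lit 24591, nat_lit 131092, nat_lit 73767, nat_lit 147478,
  nat_lit 57367, nat_lit 98332, nat_lit 8219, nat_lit 376884, nat_lit 8207, nat_lit 180248,
  nat_lit 139287, nat_lit 49192, nat_lit 303153, nat_lit 16406, nat_lit 24595, nat_lit 98322,
  nat_lit 8199, nat_lit 147514, nat_lit 57365, nat_lit 65546, nat_lit 122899, nat_lit 98320,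
  nat_lit 155671, nat_lit 294954, nat_lit 73743, nat_lit 32776, nat_lit 57359, nat_lit 32780,
  nat_lit 40967, nat_lit 32780, nat_lit 24583, nat_lit 65546, nat_lit 57371, nat_lit 131090,
  nat_lit 139289, nat_lit 196636, nat_lit 8213, nat_lit 16406, nat_lit 24591, nat_lit 32796,
  nat_lit 57363, nat_lit 81932, nat_lit 8201, nat_lit 16404, nat_lit 73755, nat_lit 229424,
  nat_lit 90125, nat_lit 32780, nat_lit 8195, nat_lit 229426, nat_lit 57353, nat_lit 131102,
  nat_lit 8199, nat_lit 131102, nat_lit 57359, nat_lit 311346, nat_lit 24591, nat_lit 49188,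
  nat_lit 8215, nat_lit 81938, nat_lit 57353, nat_lit 16394, nat_lit 8195, nat_lit 131094,
  nat_lit 286769, nat_lit 32796, nat_lit 8195, nat_lit 131094, nat_lit 24601, nat_lit 32798,
  nat_lit 57367, nat_lit 49170, nat_lit 24597, nat_lit 16400, nat_lit 155687, nat_lit 32792,
  nat_lit 8197, nat_lit 98322, nat_lit 8199, nat_lit 32782, nat_lit 122919, nat_lit 98320,
  nat_lit 90129, nat_lit 180264, nat_lit 122905, nat_lit 65556, nat_lit 106517, nat_lit 131096,
  nat_lit 40983, nat_lit 245842, nat_lit 24591, nat_lit 131112, nat_lit 57363, nat_lit 49162,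
  nat_lit 204835, nat_lit 147498, nat_lit 57359, nat_lit 65562, nat_lit 24591, nat_lit 147490,
  nat_lit 57367, nat_lit 131100, nat_lit 8201, nat_lit 65546, nat_lit 106539, nat_lit 32778,
  nat_lit 57357, nat_lit 32784, nat_lit 24597, nat_lit 65556, nat_lit 57353, nat_lit 147502,
  nat_lit 8209, nat_lit 98320, nat_lit 24583, nat_lit 16388, nat_lit 57369, nat_lit 32784,
  nat_lit 41003, nat_lit 426042, nat_lit 270391, nat_lit 65556, nat_lit 8205, nat_lit 98362,
  nat_lit 155677, nat_lit 32780, nat_lit 8223, nat_lit 213036, nat_lit 106527, nat_lit 32790,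
  nat_lit 40983, nat_lit 131102, nat_lit 24595, nat_lit 65552, nat_lit 204837, nat_lit 81942,
  nat_lit 90153, nat_lit 49168, nat_lit 24597, nat_lit 16394, nat_lit 204839, nat_lit 49168,
  nat_lit 8203, nat_lit 147484, nat_lit 57363, nat_lit 65546, nat_lit 8195, nat_lit 32786,
  nat_lit 40973, nat_lit 32790, nat_lit 24589, nat_lit 65562, nat_lit 155681, nat_lit 131090,
  nat_lit 40967, nat_lit 98332, nat_lit 122911, nat_lit 32784, nat_lit 57357, nat_lit 327722,
  nat_lit 40973, nat_lit 180254, nat_lit 57353, nat_lit 180256, nat_lit 73741, nat_lit 229410,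
  nat_lit 40967, nat_lit 32784, nat_lit 24583, nat_lit 16392, nat_lit 57383, nat_lit 81938,
  nat_lit 106515, nat_lit 180282, nat_lit 73755, nat_lit 32782, nat_lit 172075, nat_lit 147484,
  nat_lit 8233, nat_lit 98322, nat_lit 24585, nat_lit 16400, nat_lit 319531, nat_lit 131090,
  nat_lit 237623, nat_lit 32796]

theorem hl2 : tl2.length = 272 := by decide +kernel

theorem ht2 : chk2All tl2 (nat_lit 552) = true := by decide +kernel

def tl3 : List ℕ := [nat_lit 106553, nat_lit 65562, nat_lit 8205, nat_lit 32778, nat_lit 57369, nat_lit 294960,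
  nat_lit 57383, nat_lit 180252, nat_lit 122905, nat_lit 442440, nat_lit 40971, nat_lit 278564,
  nat_lit 24583, nat_lit 16388, nat_lit 106521, nat_lit 180252, nat_lit 106527, nat_lit 98322,
  nat_lit 122905, nat_lit 114722, nat_lit 24597, nat_lit 32780, nat_lit 90135, nat_lit 32778,
  nat_lit 122919, nat_lit 229422, nat_lit 73749, nat_lit 81938, nat_lit 40985, nat_lit 32780,
  nat_lit 106511, nat_lit 65552, nat_lit 106521, nat_lit 180248, nat_lit 139287, nat_lit 49168,
  nat_lit 8195, nat_lit 131092, nat_lit 24591, nat_lit 180266, nat_lit 8199, nat_lit 196654,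
  nat_lit 122917, nat_lit 16406, nat_lit 24589, nat_lit 81932, nat_lit 155671, nat_lit 245806,
  nat_lit 221223, nat_lit 475218, nat_lit 24583, nat_lit 196642, nat_lit 40983, nat_lit 147478,
  nat_lit 106521, nat_lit 65552, nat_lit 221223, nat_lit 98320, nat_lit 434231, nat_lit 32778,
  nat_lit 204827, nat_lit 16406, nat_lit 57365, nat_lit 278582, nat_lit 40977, nat_lit 49162,
  nat_lit 8199, nat_lit 65556, nat_lit 24591, nat_lit 196656, nat_lit 188471, nat_lit 98340,
  nat_lit 106511, nat_lit 16388, nat_lit 352305, nat_lit 81936, nat_lit 106519, nat_lit 147516,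
  nat_lit 73747, nat_lit 16388, nat_lit 172089, nat_lit 32774, nat_lit 8229, nat_lit 147478,
  nat_lit 106521, nat_lit 16392, nat_lit 8201, nat_lit 229422, nat_lit 57357, nat_lit 196636,
  nat_lit 24601, nat_lit 262190, nat_lit 122911, nat_lit 147478, nat_lit 40983, nat_lit 327722,
  nat_lit 8195, nat_lit 81948, nat_lit 73765, nat_lit 196636, nat_lit 139287, nat_lit 131114,
  nat_lit 303167, nat_lit 262178, nat_lit 57359, nat_lit 49192, nat_lit 8203, nat_lit 131094,
  nat_lit 122919, nat_lit 16392, nat_lit 106521, nat_lit 32792, nat_lit 8199, nat_lit 229418,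
  nat_lit 122899, nat_lit 65558, nat_lit 106517, nat_lit 49168, nat_lit 106519, nat_lit 98326,
  nat_lit 122905, nat_lit 32776, nat_lit 8199, nat_lit 229434, nat_lit 106519, nat_lit 49174,
  nat_lit 8199, nat_lit 327738, nat_lit 73741, nat_lit 32780, nat_lit 40971, nat_lit 49174,
  nat_lit 57389, nat_lit 16404, nat_lit 24583, nat_lit 81932, nat_lit 8203, nat_lit 147478,
  nat_lit 24601, nat_lit 32796, nat_lit 57359, nat_lit 98320, nat_lit 8209, nat_lit 32786,
  nat_lit 57353, nat_lit 16392, nat_lit 24589, nat_lit 49164, nat_lit 155685, nat_lit 32780,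
  nat_lit 253989, nat_lit 65550, nat_lit 57365, nat_lit 81962, nat_lit 155677, nat_lit 147496,
  nat_lit 155715, nat_lit 16436, nat_lit 73743, nat_lit 32786, nat_lit 57355, nat_lit 49164,
  nat_lit 8195, nat_lit 65546, nat_lit 24609, nat_lit 229406, nat_lit 57361, nat_lit 49168,
  nat_lit 155675, nat_lit 32790, nat_lit 122905, nat_lit 98322, nat_lit 40967, nat_lit 32786,
  nat_lit 57359, nat_lit 65552, nat_lit 24609, nat_lit 131120, nat_lit 188445, nat_lit 98332,
  nat_lit 8207, nat_lit 65580, nat_lit 57357, nat_lit 98344, nat_lit 40979, nat_lit 81936,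
  nat_lit 8201, nat_lit 16392, nat_lit 57359, nat_lit 229406, nat_lit 40971, nat_lit 131094,
  nat_lit 24607, nat_lit 163868, nat_lit 24583, nat_lit 180254, nat_lit 57355, nat_lit 81948,
  nat_lit 204833, nat_lit 229426, nat_lit 57357, nat_lit 49240, nat_lit 139295, nat_lit 32808,
  nat_lit 73767, nat_lit 163890, nat_lit 303153, nat_lit 131090, nat_lit 106513, nat_lit 393274,
  nat_lit 122907, nat_lit 16388, nat_lit 8207, nat_lit 180252, nat_lit 40973, nat_lit 49162,
  nat_lit 253989, nat_lit 65562, nat_lit 24583, nat_lit 98328, nat_lit 40967, nat_lit 131090,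
  nat_lit 57357, nat_lit 81978, nat_lit 57353, nat_lit 147496, nat_lit 188453, nat_lit 98322,
  nat_lit 303147, nat_lit 65546, nat_lit 8195, nat_lit 32786, nat_lit 434247, nat_lit 32786,
  nat_lit 204833, nat_lit 229434, nat_lit 8213, nat_lit 147498, nat_lit 40973, nat_lit 180266,
  nat_lit 221227, nat_lit 114704, nat_lit 8199, nat_lit 245818, nat_lit 106549, nat_lit 98320,
  nat_lit 8195, nat_lit 16394, nat_lit 57353, nat_lit 32802, nat_lit 57355, nat_lit 32774,
  nat_lit 122935, nat_lit 311340, nat_lit 73743, nat_lit 98350, nat_lit 8203, nat_lit 475196,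
  nat_lit 24603, nat_lit 32782, nat_lit 122901, nat_lit 98322, nat_lit 57361, nat_lit 32780,
  nat_lit 73743, nat_lit 65546, nat_lit 401459, nat_lit 81950, nat_lit 40979, nat_lit 81938,
  nat_lit 8199, nat_lit 114710]

theorem hl3 : tl3.length = 272 := by decide +kernel

theorem ht3 : chk2All tl3 (nat_lit 824) = true := by decide +kernel

def tl4 : List ℕ := [nat_lit 8205, nat_lit 98332, nat_lit 40983, nat_lit 327762, nat_lit 24595, nat_lit 163866,
  nat_lit 24585, nat_lit 81992, nat_lit 40973, nat_lit 32792, nat_lit 8219, nat_lit 81964,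
  nat_lit 155685, nat_lit 131094, nat_lit 581715, nat_lit 98332, nat_lit 73767, nat_lit 16404,
  nat_lit 24583, nat_lit 376880, nat_lit 188469, nat_lit 32778, nat_lit 122899, nat_lit 131098,
  nat_lit 221217, nat_lit 147496, nat_lit 40979, nat_lit 32796, nat_lit 8207, nat_lit 114716,
  nat_lit 57359, nat_lit 98322, nat_lit 204837, nat_lit 245820, nat_lit 24603, nat_lit 16394,
  nat_lit 57353, nat_lit 98322, nat_lit 106521, nat_lit 180248, nat_lit 57381, nat_lit 114708,
  nat_lit 57357, nat_lit 98320, nat_lit 8223, nat_lit 49164, nat_lit 24595, nat_lit 16412,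
  nat_lit 8213, nat_lit 32774, nat_lit 8205, nat_lit 98322, nat_lit 106521, nat_lit 81966,
  nat_lit 8199, nat_lit 147486, nat_lit 57373, nat_lit 229406, nat_lit 24609, nat_lit 262190,
  nat_lit 8195, nat_lit 32780, nat_lit 139307, nat_lit 147486, nat_lit 172059, nat_lit 131104,
  nat_lit 24589, nat_lit 229406, nat_lit 40995, nat_lit 884848, nat_lit 57359, nat_lit 114710,
  nat_lit 122899, nat_lit 131108, nat_lit 57355, nat_lit 147478, nat_lit 57371, nat_lit 65556,
  nat_lit 8217, nat_lit 32780, nat_lit 8203, nat_lit 32780, nat_lit 57377, nat_lit 16412,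
  nat_lit 57375, nat_lit 131132, nat_lit 57373, nat_lit 32778, nat_lit 8273, nat_lit 32800,
  nat_lit 106517, nat_lit 147478, nat_lit 204843, nat_lit 229406, nat_lit 73741, nat_lit 81952,
  nat_lit 122899, nat_lit 81944, nat_lit 106513, nat_lit 32784, nat_lit 24601, nat_lit 32800,
  nat_lit 122905, nat_lit 49164, nat_lit 90129, nat_lit 81948, nat_lit 57359, nat_lit 32776,
  nat_lit 24607, nat_lit 180278, nat_lit 40967, nat_lit 147484, nat_lit 106533, nat_lit 16400,
  nat_lit 8195, nat_lit 98334, nat_lit 40979, nat_lit 229410, nat_lit 57389, nat_lit 16412,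
  nat_lit 57371, nat_lit 81944, nat_lit 40985, nat_lit 344122, nat_lit 106515, nat_lit 16412,
  nat_lit 57353, nat_lit 180266, nat_lit 303151, nat_lit 147478, nat_lit 122917, nat_lit 278586,
  nat_lit 73741, nat_lit 229412, nat_lit 188459, nat_lit 131102, nat_lit 106515, nat_lit 16424,
  nat_lit 106511, nat_lit 32786, nat_lit 57357, nat_lit 32796, nat_lit 24591, nat_lit 16400,
  nat_lit 57365, nat_lit 49180, nat_lit 57361, nat_lit 81938, nat_lit 8199, nat_lit 16392,
  nat_lit 8207, nat_lit 32786, nat_lit 41003, nat_lit 49162, nat_lit 106523, nat_lit 65552,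
  nat_lit 73765, nat_lit 278580, nat_lit 40983, nat_lit 32774, nat_lit 24601, nat_lit 32776,
  nat_lit 73741, nat_lit 98350, nat_lit 90129, nat_lit 81932, nat_lit 73743, nat_lit 32788,
  nat_lit 24583, nat_lit 131090, nat_lit 41021, nat_lit 81944, nat_lit 57353, nat_lit 65552,
  nat_lit 24589, nat_lit 49188, nat_lit 40979, nat_lit 81938, nat_lit 8207, nat_lit 32790,
  nat_lit 8199, nat_lit 278570, nat_lit 286757, nat_lit 180272, nat_lit 254015, nat_lit 81966,
  nat_lit 122937, nat_lit 98322, nat_lit 335939, nat_lit 32802, nat_lit 467049, nat_lit 114746,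
  nat_lit 106515, nat_lit 229412, nat_lit 8215, nat_lit 245806, nat_lit 122905, nat_lit 475228,
  nat_lit 8213, nat_lit 49164, nat_lit 90129, nat_lit 229416, nat_lit 204839, nat_lit 163890,
  nat_lit 73747, nat_lit 229412, nat_lit 40989, nat_lit 147480, nat_lit 57359, nat_lit 131110,
  nat_lit 8223, nat_lit 278586, nat_lit 40967, nat_lit 98320, nat_lit 24583, nat_lit 16410,
  nat_lit 24603, nat_lit 32790, nat_lit 8197, nat_lit 32780, nat_lit 8207, nat_lit 65550,
  nat_lit 303179, nat_lit 49182, nat_lit 8205, nat_lit 131108, nat_lit 122917, nat_lit 180256,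
  nat_lit 8195, nat_lit 32786, nat_lit 57355, nat_lit 147480, nat_lit 155675, nat_lit 16394,
  nat_lit 24603, nat_lit 376884, nat_lit 188451, nat_lit 196642, nat_lit 122925, nat_lit 114704,
  nat_lit 57359, nat_lit 32786, nat_lit 155683, nat_lit 49164, nat_lit 8195, nat_lit 65564,
  nat_lit 73743, nat_lit 147478, nat_lit 40971, nat_lit 32822, nat_lit 57359, nat_lit 32788,
  nat_lit 221229, nat_lit 147496, nat_lit 8209, nat_lit 49168, nat_lit 204833, nat_lit 32776,
  nat_lit 8195, nat_lit 49168, nat_lit 40967, nat_lit 196638, nat_lit 122905, nat_lit 180252,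
  nat_lit 73771, nat_lit 49194, nat_lit 401461, nat_lit 32796, nat_lit 57365, nat_lit 32784,
  nat_lit 8195, nat_lit 32780]

theorem hl4 : tl4.length = 272 := by decide +kernel

theorem ht4 : chk2All tl4 (nat_lit 1096) = true := by decide +kernel

def tl5 : List ℕ := [nat_lit 106519, nat_lit 131100, nat_lit 401459, nat_lit 16406, nat_lit 155673, nat_lit 180248,
  nat_lit 8199, nat_lit 49168, nat_lit 8207, nat_lit 32788, nat_lit 24585, nat_lit 81960,
  nat_lit 57373, nat_lit 229418, nat_lit 24601, nat_lit 32788, nat_lit 106511, nat_lit 98322,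
  nat_lit 139289, nat_lit 98322, nat_lit 204827, nat_lit 65546, nat_lit 57353, nat_lit 49168,
  nat_lit 286769, nat_lit 32778, nat_lit 8195, nat_lit 32776, nat_lit 253997, nat_lit 147480,
  nat_lit 57363, nat_lit 344146, nat_lit 73747, nat_lit 65546, nat_lit 122905, nat_lit 147514,
  nat_lit 204835, nat_lit 32784, nat_lit 8207, nat_lit 278568, nat_lit 24583, nat_lit 49164,
  nat_lit 8205, nat_lit 49170, nat_lit 106511, nat_lit 32782, nat_lit 221229, nat_lit 32792,
  nat_lit 8197, nat_lit 81942, nat_lit 24585, nat_lit 229408, nat_lit 8195, nat_lit 131102,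
  nat_lit 139283, nat_lit 32816, nat_lit 57357, nat_lit 16412, nat_lit 172059, nat_lit 81932,
  nat_lit 106533, nat_lit 147492, nat_lit 8201, nat_lit 163890, nat_lit 122935, nat_lit 147484,
  nat_lit 8199, nat_lit 49170, nat_lit 270387, nat_lit 16398, nat_lit 57353, nat_lit 131100,
  nat_lit 8199, nat_lit 475218, nat_lit 303143, nat_lit 32776, nat_lit 57359, nat_lit 294964,
  nat_lit 57379, nat_lit 32780, nat_lit 73761, nat_lit 81942, nat_lit 155679, nat_lit 49164,
  nat_lit 106531, nat_lit 180266, nat_lit 204843, nat_lit 114704, nat_lit 8195, nat_lit 32778,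
  nat_lit 57373, nat_lit 131118, nat_lit 8195, nat_lit 65564, nat_lit 57383, nat_lit 147480,
  nat_lit 139287, nat_lit 49174, nat_lit 122901, nat_lit 32782, nat_lit 270379, nat_lit 229434,
  nat_lit 106519, nat_lit 81938, nat_lit 106533, nat_lit 163868, nat_lit 24601, nat_lit 32802,
  nat_lit 40983, nat_lit 81932, nat_lit 57359, nat_lit 131094, nat_lit 24583, nat_lit 81942,
  nat_lit 57367, nat_lit 81942, nat_lit 106527, nat_lit 65550, nat_lit 57377, nat_lit 81962,
  nat_lit 139289, nat_lit 180284, nat_lit 417849, nat_lit 163872, nat_lit 204867, nat_lit 278568,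
  nat_lit 8209, nat_lit 49170, nat_lit 57371, nat_lit 16388, nat_lit 712831, nat_lit 147484,
  nat_lit 106525, nat_lit 180260, nat_lit 73741, nat_lit 163862, nat_lit 8207, nat_lit 196662,
  nat_lit 57375, nat_lit 32786, nat_lit 204837, nat_lit 16400, nat_lit 57371, nat_lit 131090,
  nat_lit 40985, nat_lit 81932, nat_lit 204843, nat_lit 65564, nat_lit 303159, nat_lit 32780,
  nat_lit 155673, nat_lit 49164, nat_lit 172063, nat_lit 163868, nat_lit 24585, nat_lit 32792,
  nat_lit 8199, nat_lit 32790, nat_lit 122911, nat_lit 32782, nat_lit 73747, nat_lit 81938,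
  nat_lit 90143, nat_lit 49180, nat_lit 57363, nat_lit 32778, nat_lit 24597, nat_lit 278570,
  nat_lit 57355, nat_lit 344116, nat_lit 106511, nat_lit 16400, nat_lit 73755, nat_lit 147492,
  nat_lit 40983, nat_lit 32796, nat_lit 57399, nat_lit 114704, nat_lit 8199, nat_lit 196656,
  nat_lit 40967, nat_lit 49212, nat_lit 8201, nat_lit 163872, nat_lit 155673, nat_lit 98328,
  nat_lit 40971, nat_lit 98346, nat_lit 8205, nat_lit 81934, nat_lit 57369, nat_lit 49174,
  nat_lit 254001, nat_lit 147478, nat_lit 303149, nat_lit 16392, nat_lit 8195, nat_lit 49186,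
  nat_lit 8203, nat_lit 81938, nat_lit 73743, nat_lit 65576, nat_lit 8201, nat_lit 49180,
  nat_lit 139287, nat_lit 442426, nat_lit 368725, nat_lit 311342, nat_lit 8213, nat_lit 180258,
  nat_lit 57361, nat_lit 147504, nat_lit 8201, nat_lit 131100, nat_lit 73765, nat_lit 98332,
  nat_lit 40967, nat_lit 32792, nat_lit 8207, nat_lit 65558, nat_lit 24583, nat_lit 49162,
  nat_lit 237615, nat_lit 98392, nat_lit 57371, nat_lit 32782, nat_lit 106529, nat_lit 32784,
  nat_lit 253989, nat_lit 229434, nat_lit 57371, nat_lit 16404, nat_lit 172063, nat_lit 49168,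
  nat_lit 57363, nat_lit 327738, nat_lit 352317, nat_lit 65558, nat_lit 106533, nat_lit 344116,
  nat_lit 352335, nat_lit 98320, nat_lit 24595, nat_lit 16394, nat_lit 73755, nat_lit 32786,
  nat_lit 8203, nat_lit 98332, nat_lit 8217, nat_lit 16392, nat_lit 270373, nat_lit 49188,
  nat_lit 90143, nat_lit 131102, nat_lit 57377, nat_lit 16394, nat_lit 24619, nat_lit 147514,
  nat_lit 106519, nat_lit 32796, nat_lit 24591, nat_lit 327726, nat_lit 73747, nat_lit 98322,
  nat_lit 40967, nat_lit 32796, nat_lit 24597, nat_lit 16416, nat_lit 221217, nat_lit 32810,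
  nat_lit 40977, nat_lit 131124]

theorem hl5 : tl5.length = 272 := by decide +kernel

theorem ht5 : chk2All tl5 (nat_lit 1368) = true := by decide +kernel

def tl6 : List ℕ := [nat_lit 8205, nat_lit 81972, nat_lit 24583, nat_lit 32780, nat_lit 8197, nat_lit 32790,
  nat_lit 24583, nat_lit 32796, nat_lit 73753, nat_lit 49170, nat_lit 57385, nat_lit 131090,
  nat_lit 24585, nat_lit 229408, nat_lit 8199, nat_lit 49170, nat_lit 57355, nat_lit 98352,
  nat_lit 57353, nat_lit 213024, nat_lit 8211, nat_lit 131100, nat_lit 57361, nat_lit 81942,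
  nat_lit 8199, nat_lit 16398, nat_lit 24589, nat_lit 98322, nat_lit 450627, nat_lit 131090,
  nat_lit 221223, nat_lit 65556, nat_lit 73765, nat_lit 32780, nat_lit 8217, nat_lit 49164,
  nat_lit 8199, nat_lit 16398, nat_lit 57393, nat_lit 81932, nat_lit 90135, nat_lit 98320,
  nat_lit 73743, nat_lit 16398, nat_lit 8205, nat_lit 376890, nat_lit 8199, nat_lit 81932,
  nat_lit 57389, nat_lit 180250, nat_lit 57365, nat_lit 81938, nat_lit 155671, nat_lit 98322,
  nat_lit 106523, nat_lit 32776, nat_lit 221221, nat_lit 81948, nat_lit 204829, nat_lit 49170,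
  nat_lit 8195, nat_lit 65556, nat_lit 73761, nat_lit 229448, nat_lit 57355, nat_lit 32786,
  nat_lit 106521, nat_lit 114710, nat_lit 204839, nat_lit 81932, nat_lit 90179, nat_lit 81936,
  nat_lit 24601, nat_lit 262214, nat_lit 172063, nat_lit 49174, nat_lit 8209, nat_lit 245830,
  nat_lit 106511, nat_lit 131092, nat_lit 106515, nat_lit 81942, nat_lit 40983, nat_lit 32786,
  nat_lit 57365, nat_lit 114716, nat_lit 122911, nat_lit 229406, nat_lit 57363, nat_lit 49162,
  nat_lit 24583, nat_lit 131098, nat_lit 24583, nat_lit 147490, nat_lit 40967, nat_lit 442434,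
  nat_lit 8217, nat_lit 16406, nat_lit 57353, nat_lit 131108, nat_lit 139287, nat_lit 180264,
  nat_lit 73743, nat_lit 180264, nat_lit 122901, nat_lit 131090, nat_lit 57361, nat_lit 196636,
  nat_lit 73743, nat_lit 16392, nat_lit 73759, nat_lit 131138, nat_lit 204829, nat_lit 32786,
  nat_lit 106523, nat_lit 32782, nat_lit 8237, nat_lit 32778, nat_lit 188451, nat_lit 147486,
  nat_lit 253991, nat_lit 163862, nat_lit 204827, nat_lit 32798, nat_lit 204831, nat_lit 98320,
  nat_lit 8199, nat_lit 81940, nat_lit 57353, nat_lit 180254, nat_lit 57361, nat_lit 49168,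
  nat_lit 57353, nat_lit 32776, nat_lit 8199, nat_lit 147480, nat_lit 90137, nat_lit 180266,
  nat_lit 73741, nat_lit 81946, nat_lit 401469, nat_lit 49168, nat_lit 57373, nat_lit 147484,
  nat_lit 8195, nat_lit 32784, nat_lit 24591, nat_lit 98332, nat_lit 57357, nat_lit 180254,
  nat_lit 8219, nat_lit 65546, nat_lit 122905, nat_lit 147484, nat_lit 8203, nat_lit 49168,
  nat_lit 253989, nat_lit 180256, nat_lit 73743, nat_lit 49162, nat_lit 155679, nat_lit 98332,
  nat_lit 24615, nat_lit 16392, nat_lit 57365, nat_lit 32780, nat_lit 40991, nat_lit 671832,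
  nat_lit 57371, nat_lit 81966, nat_lit 24583, nat_lit 131094, nat_lit 40977, nat_lit 180248,
  nat_lit 368691, nat_lit 65562, nat_lit 8195, nat_lit 81942, nat_lit 188441, nat_lit 131094,
  nat_lit 417849, nat_lit 131098, nat_lit 155691, nat_lit 573558, nat_lit 8227, nat_lit 131106,
  nat_lit 172057, nat_lit 16392, nat_lit 122899, nat_lit 49164, nat_lit 106525, nat_lit 81986,
  nat_lit 106511, nat_lit 81952, nat_lit 122911, nat_lit 229434, nat_lit 90135, nat_lit 245794,
  nat_lit 73743, nat_lit 16434, nat_lit 73761, nat_lit 147508, nat_lit 237603, nat_lit 98326,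
  nat_lit 204843, nat_lit 65552, nat_lit 221221, nat_lit 196660, nat_lit 155727, nat_lit 229418,
  nat_lit 8201, nat_lit 131092, nat_lit 467017, nat_lit 32808, nat_lit 40983, nat_lit 131090,
  nat_lit 24583, nat_lit 32782, nat_lit 122919, nat_lit 49168, nat_lit 8233, nat_lit 98340,
  nat_lit 73801, nat_lit 426042, nat_lit 57357, nat_lit 32786, nat_lit 90125, nat_lit 98352,
  nat_lit 270375, nat_lit 16406, nat_lit 8229, nat_lit 245806, nat_lit 188451, nat_lit 81938,
  nat_lit 122917, nat_lit 114720, nat_lit 8195, nat_lit 98322, nat_lit 204847, nat_lit 49180,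
  nat_lit 57357, nat_lit 213020, nat_lit 122913, nat_lit 32778, nat_lit 8197, nat_lit 32784,
  nat_lit 24597, nat_lit 81940, nat_lit 57353, nat_lit 131112, nat_lit 106515, nat_lit 98332,
  nat_lit 122899, nat_lit 655454, nat_lit 8205, nat_lit 180272, nat_lit 40971, nat_lit 32802,
  nat_lit 270373, nat_lit 65558, nat_lit 24597, nat_lit 49162, nat_lit 40967, nat_lit 426038,
  nat_lit 106523, nat_lit 16388, nat_lit 352323, nat_lit 147490, nat_lit 57367, nat_lit 131100,
  nat_lit 8199, nat_lit 65558]

theorem hl6 : tl6.length = 272 := by decide +kernel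

theorem ht6 : chk2All tl6 (nat_lit 1640) = true := by decide +kernel

def tl7 : List ℕ := [nat_lit 24585, nat_lit 147498, nat_lit 188441, nat_lit 49170, nat_lit 106511, nat_lit 65558,
  nat_lit 155675, nat_lit 81936, nat_lit 8203, nat_lit 81936, nat_lit 57369, nat_lit 32788,
  nat_lit 24583, nat_lit 32802, nat_lit 90135, nat_lit 475206, nat_lit 204839, nat_lit 65546,
  nat_lit 57357, nat_lit 147484, nat_lit 40985, nat_lit 98322, nat_lit 122917, nat_lit 16412,
  nat_lit 24603, nat_lit 327728, nat_lit 40995, nat_lit 49182, nat_lit 8201, nat_lit 16400,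
  nat_lit 106539, nat_lit 393280, nat_lit 188441, nat_lit 131094, nat_lit 24613, nat_lit 655472,
  nat_lit 57359, nat_lit 229406, nat_lit 90135, nat_lit 180260, nat_lit 122919, nat_lit 16428,
  nat_lit 57359, nat_lit 32774, nat_lit 90125, nat_lit 32792, nat_lit 106565, nat_lit 65558,
  nat_lit 24595, nat_lit 131090, nat_lit 188451, nat_lit 81954, nat_lit 8205, nat_lit 65552,
  nat_lit 8223, nat_lit 98326, nat_lit 139301, nat_lit 98322, nat_lit 8199, nat_lit 16436,
  nat_lit 319551, nat_lit 98326, nat_lit 8215, nat_lit 196662, nat_lit 122901, nat_lit 65546,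
  nat_lit 24589, nat_lit 98322, nat_lit 8209, nat_lit 393268, nat_lit 303147, nat_lit 114708,
  nat_lit 122917, nat_lit 49174, nat_lit 188451, nat_lit 32778, nat_lit 155685, nat_lit 180256,
  nat_lit 8229, nat_lit 49162, nat_lit 57357, nat_lit 180266, nat_lit 57369, nat_lit 16410,
  nat_lit 122911, nat_lit 98322, nat_lit 57369, nat_lit 49168, nat_lit 303143, nat_lit 65558,
  nat_lit 73747, nat_lit 32792, nat_lit 40971, nat_lit 49246, nat_lit 8195, nat_lit 163868,
  nat_lit 57377, nat_lit 81932, nat_lit 155671, nat_lit 475232, nat_lit 221229, nat_lit 32800,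
  nat_lit 106529, nat_lit 98328, nat_lit 352311, nat_lit 98328, nat_lit 106571, nat_lit 16400,
  nat_lit 24585, nat_lit 622670, nat_lit 303147, nat_lit 147486, nat_lit 24583, nat_lit 16400,
  nat_lit 8213, nat_lit 229410, nat_lit 188445, nat_lit 131118, nat_lit 24607, nat_lit 81952,
  nat_lit 57353, nat_lit 196638, nat_lit 8209, nat_lit 147504, nat_lit 24613, nat_lit 32788,
  nat_lit 24585, nat_lit 344134, nat_lit 57355, nat_lit 147484, nat_lit 57363, nat_lit 32806,
  nat_lit 24609, nat_lit 98322, nat_lit 57357, nat_lit 180252, nat_lit 122905, nat_lit 65564,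
  nat_lit 8213, nat_lit 81932, nat_lit 40977, nat_lit 344122, nat_lit 8223, nat_lit 16388,
  nat_lit 8205, nat_lit 98322, nat_lit 106515, nat_lit 81932, nat_lit 57363, nat_lit 65556,
  nat_lit 24589, nat_lit 147484, nat_lit 8203, nat_lit 98338, nat_lit 368697, nat_lit 65576,
  nat_lit 24589, nat_lit 49218, nat_lit 155689, nat_lit 98320, nat_lit 24591, nat_lit 262184,
  nat_lit 8213, nat_lit 32792, nat_lit 90153, nat_lit 393270, nat_lit 24583, nat_lit 16430,
  nat_lit 8195, nat_lit 49174, nat_lit 57369, nat_lit 196642, nat_lit 8207, nat_lit 16388,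
  nat_lit 8205, nat_lit 32780, nat_lit 40997, nat_lit 49174, nat_lit 57357, nat_lit 65562,
  nat_lit 24595, nat_lit 278586, nat_lit 8197, nat_lit 32774, nat_lit 8195, nat_lit 180268,
  nat_lit 303153, nat_lit 229406, nat_lit 155689, nat_lit 131090, nat_lit 106529, nat_lit 65546,
  nat_lit 221215, nat_lit 32802, nat_lit 8197, nat_lit 32792, nat_lit 204843, nat_lit 65558,
  nat_lit 253991, nat_lit 49170, nat_lit 40973, nat_lit 98328, nat_lit 254007, nat_lit 131124,
  nat_lit 8199, nat_lit 147480, nat_lit 57357, nat_lit 147478, nat_lit 8255, nat_lit 81940,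
  nat_lit 24585, nat_lit 32786, nat_lit 57355, nat_lit 32774, nat_lit 8217, nat_lit 81990,
  nat_lit 122913, nat_lit 98320, nat_lit 106525, nat_lit 180254, nat_lit 73753, nat_lit 16392,
  nat_lit 57369, nat_lit 147478, nat_lit 8197, nat_lit 98332, nat_lit 73741, nat_lit 16404,
  nat_lit 73749, nat_lit 147478, nat_lit 237615, nat_lit 32838, nat_lit 794735, nat_lit 32800,
  nat_lit 57359, nat_lit 98346, nat_lit 57397, nat_lit 98320, nat_lit 73761, nat_lit 213020,
  nat_lit 57371, nat_lit 229406, nat_lit 8217, nat_lit 229412, nat_lit 106511, nat_lit 229416,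
  nat_lit 73743, nat_lit 81938, nat_lit 434249, nat_lit 229416, nat_lit 57353, nat_lit 507984,
  nat_lit 57365, nat_lit 32790, nat_lit 90125, nat_lit 196636, nat_lit 57363, nat_lit 131100,
  nat_lit 155687, nat_lit 81936, nat_lit 40973, nat_lit 32796, nat_lit 8195, nat_lit 180252,
  nat_lit 24591, nat_lit 278576, nat_lit 57361, nat_lit 49174, nat_lit 73759, nat_lit 65546,
  nat_lit 106515, nat_lit 81942]

theorem hl7 : tl7.length = 272 := by decide +kernel

theorem ht7 : chk2All tl7 (nat_lit 1912) = true := by decide +kernel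

def tl8 : List ℕ := [nat_lit 90129, nat_lit 196644, nat_lit 57359, nat_lit 16392, nat_lit 24603, nat_lit 131118,
  nat_lit 90131, nat_lit 49212, nat_lit 24595, nat_lit 16388, nat_lit 24583, nat_lit 147484,
  nat_lit 40967, nat_lit 32790, nat_lit 270375, nat_lit 131100, nat_lit 221233, nat_lit 131090,
  nat_lit 286763, nat_lit 278568, nat_lit 172065, nat_lit 16400, nat_lit 57377, nat_lit 98322,
  nat_lit 57361, nat_lit 49180, nat_lit 8219, nat_lit 16394, nat_lit 270375, nat_lit 81932,
  nat_lit 40967, nat_lit 32784, nat_lit 57357, nat_lit 32788, nat_lit 24613, nat_lit 49170,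
  nat_lit 499783, nat_lit 98322, nat_lit 24583, nat_lit 16404, nat_lit 8205, nat_lit 32804,
  nat_lit 40971, nat_lit 32808, nat_lit 204857, nat_lit 262182, nat_lit 73749, nat_lit 49194,
  nat_lit 303157, nat_lit 81944, nat_lit 24591, nat_lit 16400, nat_lit 57375, nat_lit 196656,
  nat_lit 106533, nat_lit 98320, nat_lit 24589, nat_lit 131158, nat_lit 204833, nat_lit 180276,
  nat_lit 57357, nat_lit 49164, nat_lit 122905, nat_lit 311336, nat_lit 24595, nat_lit 98326,
  nat_lit 237611, nat_lit 376910, nat_lit 57359, nat_lit 65564, nat_lit 106521, nat_lit 196662,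
  nat_lit 40971, nat_lit 81954, nat_lit 24585, nat_lit 16400, nat_lit 8199, nat_lit 49168,
  nat_lit 188441, nat_lit 32790, nat_lit 24589, nat_lit 229410, nat_lit 8207, nat_lit 98334,
  nat_lit 106519, nat_lit 81938, nat_lit 73765, nat_lit 131110, nat_lit 73741, nat_lit 98338,
  nat_lit 90129, nat_lit 98340, nat_lit 303161, nat_lit 32796, nat_lit 57353, nat_lit 49180,
  nat_lit 188445, nat_lit 81932, nat_lit 204833, nat_lit 16388, nat_lit 57369, nat_lit 49210,
  nat_lit 8217, nat_lit 147484, nat_lit 352301, nat_lit 16392, nat_lit 24615, nat_lit 49194,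
  nat_lit 106549, nat_lit 229410, nat_lit 8199, nat_lit 114740, nat_lit 24591, nat_lit 196660,
  nat_lit 40973, nat_lit 131132, nat_lit 57371, nat_lit 16392, nat_lit 73743, nat_lit 81938,
  nat_lit 8217, nat_lit 131090, nat_lit 24639, nat_lit 32776, nat_lit 204837, nat_lit 98322,
  nat_lit 8209, nat_lit 180252, nat_lit 122899, nat_lit 114708, nat_lit 8213, nat_lit 49174,
  nat_lit 40991, nat_lit 426042, nat_lit 24583, nat_lit 65556, nat_lit 8199, nat_lit 147486,
  nat_lit 40973, nat_lit 98326, nat_lit 24603, nat_lit 131116, nat_lit 8199, nat_lit 180258,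
  nat_lit 106525, nat_lit 131102, nat_lit 8201, nat_lit 65552, nat_lit 24583, nat_lit 32780,
  nat_lit 188441, nat_lit 49194, nat_lit 8199, nat_lit 360498, nat_lit 106511, nat_lit 180254,
  nat_lit 303147, nat_lit 49162, nat_lit 122973, nat_lit 278578, nat_lit 24601, nat_lit 49176,
  nat_lit 40967, nat_lit 491608, nat_lit 24601, nat_lit 180256, nat_lit 155675, nat_lit 98340,
  nat_lit 188531, nat_lit 32786, nat_lit 8229, nat_lit 16398, nat_lit 24603, nat_lit 98346,
  nat_lit 40967, nat_lit 49198, nat_lit 8201, nat_lit 180250, nat_lit 73753, nat_lit 180252,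
  nat_lit 40983, nat_lit 32784, nat_lit 24591, nat_lit 32776, nat_lit 122899, nat_lit 131090,
  nat_lit 57355, nat_lit 98350, nat_lit 57353, nat_lit 327724, nat_lit 368721, nat_lit 32786,
  nat_lit 57375, nat_lit 32826, nat_lit 221217, nat_lit 81952, nat_lit 8211, nat_lit 229418,
  nat_lit 40983, nat_lit 196656, nat_lit 57359, nat_lit 180258, nat_lit 204837, nat_lit 196668,
  nat_lit 155673, nat_lit 294988, nat_lit 172071, nat_lit 131092, nat_lit 204827, nat_lit 81948,
  nat_lit 188457, nat_lit 344118, nat_lit 106533, nat_lit 163862, nat_lit 303143, nat_lit 49170,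
  nat_lit 90183, nat_lit 131112, nat_lit 368689, nat_lit 16404, nat_lit 8207, nat_lit 180260,
  nat_lit 8197, nat_lit 32780, nat_lit 24595, nat_lit 16400, nat_lit 57357, nat_lit 49162,
  nat_lit 57367, nat_lit 32798, nat_lit 24597, nat_lit 262206, nat_lit 57369, nat_lit 147528,
  nat_lit 188465, nat_lit 229412, nat_lit 8199, nat_lit 65562, nat_lit 106521, nat_lit 81950,
  nat_lit 40995, nat_lit 32774, nat_lit 57369, nat_lit 65556, nat_lit 155693, nat_lit 49204,
  nat_lit 8199, nat_lit 49168, nat_lit 24669, nat_lit 16388, nat_lit 221235, nat_lit 475200,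
  nat_lit 90135, nat_lit 196648, nat_lit 57353, nat_lit 262200, nat_lit 24613, nat_lit 147478,
  nat_lit 139311, nat_lit 32786, nat_lit 24591, nat_lit 180250, nat_lit 122907, nat_lit 81984,
  nat_lit 106539, nat_lit 81932, nat_lit 73747, nat_lit 16410, nat_lit 73741, nat_lit 32816,
  nat_lit 8199, nat_lit 98332]

theorem hl8 : tl8.length = 272 := by decide +kernel

theorem ht8 : chk2All tl8 (nat_lit 2184) = true := by decide +kernel

def tl9 : List ℕ := [nat_lit 8235, nat_lit 65556, nat_lit 368719, nat_lit 131100, nat_lit 8199, nat_lit 180252,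
  nat_lit 122899, nat_lit 114726, nat_lit 8207, nat_lit 32780, nat_lit 204843, nat_lit 229410,
  nat_lit 24583, nat_lit 131098, nat_lit 8195, nat_lit 294960, nat_lit 41003, nat_lit 98358,
  nat_lit 106523, nat_lit 229414, nat_lit 221217, nat_lit 32778, nat_lit 303151, nat_lit 131112,
  nat_lit 73749, nat_lit 458810, nat_lit 57353, nat_lit 147516, nat_lit 499783, nat_lit 32780,
  nat_lit 24583, nat_lit 16388, nat_lit 24585, nat_lit 180252, nat_lit 57355, nat_lit 81936,
  nat_lit 24609, nat_lit 16392, nat_lit 57369, nat_lit 32840, nat_lit 8223, nat_lit 32786,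
  nat_lit 24583, nat_lit 81936, nat_lit 73767, nat_lit 98364, nat_lit 106513, nat_lit 81978,
  nat_lit 57365, nat_lit 229428, nat_lit 24607, nat_lit 229434, nat_lit 106533, nat_lit 49168,
  nat_lit 24585, nat_lit 65556, nat_lit 57353, nat_lit 180264, nat_lit 188447, nat_lit 32780,
  nat_lit 8199, nat_lit 65556, nat_lit 155685, nat_lit 131118, nat_lit 90131, nat_lit 131108,
  nat_lit 155673, nat_lit 114720, nat_lit 57371, nat_lit 49164, nat_lit 41025, nat_lit 32778,
  nat_lit 122925, nat_lit 163866, nat_lit 172071, nat_lit 147484, nat_lit 204849, nat_lit 229440,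
  nat_lit 8195, nat_lit 16388, nat_lit 8205, nat_lit 81998, nat_lit 188445, nat_lit 98352,
  nat_lit 73761, nat_lit 81966, nat_lit 73743, nat_lit 32802, nat_lit 139295, nat_lit 196642,
  nat_lit 57357, nat_lit 114738, nat_lit 155673, nat_lit 327732, nat_lit 8211, nat_lit 147478,
  nat_lit 57353, nat_lit 180268, nat_lit 122901, nat_lit 49170, nat_lit 57355, nat_lit 147496,
  nat_lit 24585, nat_lit 65552, nat_lit 172095, nat_lit 98320, nat_lit 106515, nat_lit 32798,
  nat_lit 106511, nat_lit 16406, nat_lit 24597, nat_lit 32790, nat_lit 286773, nat_lit 147492,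
  nat_lit 8195, nat_lit 65558, nat_lit 122917, nat_lit 180248, nat_lit 40985, nat_lit 131100,
  nat_lit 8207, nat_lit 81958, nat_lit 565327, nat_lit 81956, nat_lit 303153, nat_lit 180260,
  nat_lit 204837, nat_lit 16388, nat_lit 122911, nat_lit 49180, nat_lit 253993, nat_lit 32792,
  nat_lit 57359, nat_lit 16392, nat_lit 106575, nat_lit 327722, nat_lit 40967, nat_lit 147504,
  nat_lit 8217, nat_lit 32776, nat_lit 122931, nat_lit 180248, nat_lit 139287, nat_lit 131100,
  nat_lit 8195, nat_lit 81936, nat_lit 122905, nat_lit 147480, nat_lit 8203, nat_lit 98320,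
  nat_lit 417853, nat_lit 32776, nat_lit 319537, nat_lit 98320, nat_lit 499779, nat_lit 81978,
  nat_lit 303149, nat_lit 229408, nat_lit 122907, nat_lit 131108, nat_lit 40983, nat_lit 98322,
  nat_lit 106511, nat_lit 65558, nat_lit 221221, nat_lit 49182, nat_lit 204829, nat_lit 98332,
  nat_lit 8217, nat_lit 65552, nat_lit 204831, nat_lit 278586, nat_lit 139287, nat_lit 49194,
  nat_lit 155681, nat_lit 16392, nat_lit 303177, nat_lit 32786, nat_lit 40967, nat_lit 131090,
  nat_lit 172057, nat_lit 32776, nat_lit 319537, nat_lit 180254, nat_lit 57363, nat_lit 49168,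
  nat_lit 24585, nat_lit 262194, nat_lit 106511, nat_lit 98358, nat_lit 8203, nat_lit 98322,
  nat_lit 73743, nat_lit 16394, nat_lit 57375, nat_lit 49170, nat_lit 57391, nat_lit 81972,
  nat_lit 8223, nat_lit 114710, nat_lit 204845, nat_lit 278570, nat_lit 57357, nat_lit 81950,
  nat_lit 24589, nat_lit 16400, nat_lit 57357, nat_lit 147486, nat_lit 8203, nat_lit 32774,
  nat_lit 8195, nat_lit 163878, nat_lit 57359, nat_lit 147486, nat_lit 57375, nat_lit 81942,
  nat_lit 155685, nat_lit 311346, nat_lit 24613, nat_lit 196636, nat_lit 8199, nat_lit 81944,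
  nat_lit 57371, nat_lit 163862, nat_lit 270387, nat_lit 49162, nat_lit 204847, nat_lit 278576,
  nat_lit 8217, nat_lit 32776, nat_lit 122917, nat_lit 32796, nat_lit 40979, nat_lit 81948,
  nat_lit 172065, nat_lit 81936, nat_lit 24583, nat_lit 32822, nat_lit 188447, nat_lit 49164,
  nat_lit 57369, nat_lit 16392, nat_lit 57369, nat_lit 131094, nat_lit 8229, nat_lit 491590,
  nat_lit 122907, nat_lit 32776, nat_lit 352313, nat_lit 32784, nat_lit 8245, nat_lit 98326,
  nat_lit 122919, nat_lit 65574, nat_lit 172081, nat_lit 49164, nat_lit 237605, nat_lit 344154,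
  nat_lit 57371, nat_lit 16416, nat_lit 24603, nat_lit 32778, nat_lit 155677, nat_lit 49182,
  nat_lit 24597, nat_lit 16430, nat_lit 57353, nat_lit 81932, nat_lit 40971, nat_lit 49188,
  nat_lit 106517, nat_lit 475198]

theorem hl9 : tl9.length = 272 := by decide +kernel

theorem ht9 : chk2All tl9 (nat_lit 2456) = true := by decide +kernel

def tl10 : List ℕ := [nat_lit 106511, nat_lit 147498, nat_lit 8209, nat_lit 147484, nat_lit 155697, nat_lit 114708,
  nat_lit 24603, nat_lit 32802, nat_lit 8203, nat_lit 245808, nat_lit 57353, nat_lit 65568,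
  nat_lit 106523, nat_lit 344122, nat_lit 57367, nat_lit 180282, nat_lit 303171, nat_lit 16428,
  nat_lit 8205, nat_lit 180252, nat_lit 106519, nat_lit 147484, nat_lit 155669, nat_lit 163878,
  nat_lit 24591, nat_lit 147516, nat_lit 8215, nat_lit 49180, nat_lit 172057, nat_lit 16388,
  nat_lit 122913, nat_lit 81936, nat_lit 8199, nat_lit 49168, nat_lit 106511, nat_lit 163874,
  nat_lit 24597, nat_lit 98362, nat_lit 8197, nat_lit 98338, nat_lit 24583, nat_lit 131092,
  nat_lit 8201, nat_lit 98322, nat_lit 40983, nat_lit 32796, nat_lit 172065, nat_lit 32782,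
  nat_lit 8217, nat_lit 32780, nat_lit 237605, nat_lit 81936, nat_lit 8195, nat_lit 180256,
  nat_lit 57401, nat_lit 245794, nat_lit 40973, nat_lit 131094, nat_lit 24607, nat_lit 262196,
  nat_lit 57353, nat_lit 147484, nat_lit 483405, nat_lit 49174, nat_lit 73773, nat_lit 16404,
  nat_lit 8195, nat_lit 98346, nat_lit 188481, nat_lit 81938, nat_lit 303153, nat_lit 213020,
  nat_lit 106527, nat_lit 81942, nat_lit 188465, nat_lit 81954, nat_lit 8199, nat_lit 16410,
  nat_lit 122905, nat_lit 32822, nat_lit 40967, nat_lit 180254, nat_lit 319545, nat_lit 163862,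
  nat_lit 57353, nat_lit 180254, nat_lit 139295, nat_lit 32780, nat_lit 57357, nat_lit 16392,
  nat_lit 122917, nat_lit 131102, nat_lit 57363, nat_lit 49174, nat_lit 73767, nat_lit 16388,
  nat_lit 8207, nat_lit 32816, nat_lit 335927, nat_lit 81932, nat_lit 303143, nat_lit 81936,
  nat_lit 57377, nat_lit 147478, nat_lit 106513, nat_lit 32796, nat_lit 8199, nat_lit 32776,
  nat_lit 8213, nat_lit 98362, nat_lit 139301, nat_lit 131090, nat_lit 106515, nat_lit 213030,
  nat_lit 73741, nat_lit 32810, nat_lit 106519, nat_lit 147490, nat_lit 57359, nat_lit 114716,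
  nat_lit 155693, nat_lit 98320, nat_lit 8229, nat_lit 98320, nat_lit 73753, nat_lit 16416,
  nat_lit 57365, nat_lit 147480, nat_lit 106527, nat_lit 147496, nat_lit 122923, nat_lit 180270,
  nat_lit 57365, nat_lit 393286, nat_lit 40985, nat_lit 81938, nat_lit 8217, nat_lit 213020,
  nat_lit 106511, nat_lit 180254, nat_lit 40967, nat_lit 131130, nat_lit 155681, nat_lit 213030,
  nat_lit 57357, nat_lit 81968, nat_lit 90143, nat_lit 32780, nat_lit 8207, nat_lit 163874,
  nat_lit 24583, nat_lit 49164, nat_lit 90125, nat_lit 49174, nat_lit 57371, nat_lit 65558,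
  nat_lit 8219, nat_lit 32786, nat_lit 335919, nat_lit 32778, nat_lit 401475, nat_lit 163872,
  nat_lit 8195, nat_lit 180260, nat_lit 40967, nat_lit 98344, nat_lit 122905, nat_lit 180258,
  nat_lit 8199, nat_lit 81944, nat_lit 40977, nat_lit 147492, nat_lit 8205, nat_lit 65592,
  nat_lit 122917, nat_lit 32796, nat_lit 139295, nat_lit 147480, nat_lit 122967, nat_lit 32788,
  nat_lit 24585, nat_lit 81962, nat_lit 188453, nat_lit 245830, nat_lit 24601, nat_lit 81934,
  nat_lit 106511, nat_lit 147480, nat_lit 8199, nat_lit 32796, nat_lit 155673, nat_lit 81972,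
  nat_lit 24585, nat_lit 49168, nat_lit 188475, nat_lit 229410, nat_lit 8205, nat_lit 32776,
  nat_lit 8195, nat_lit 98374, nat_lit 40983, nat_lit 245812, nat_lit 73749, nat_lit 180252,
  nat_lit 57359, nat_lit 147478, nat_lit 8209, nat_lit 49180, nat_lit 106511, nat_lit 32778,
  nat_lit 57381, nat_lit 229434, nat_lit 155679, nat_lit 81956, nat_lit 57381, nat_lit 16388,
  nat_lit 8207, nat_lit 32780, nat_lit 90129, nat_lit 98326, nat_lit 73765, nat_lit 16392,
  nat_lit 24615, nat_lit 81942, nat_lit 57363, nat_lit 147480, nat_lit 204827, nat_lit 16388,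
  nat_lit 57387, nat_lit 32798, nat_lit 57367, nat_lit 147486, nat_lit 8211, nat_lit 131094,
  nat_lit 204837, nat_lit 180258, nat_lit 8199, nat_lit 32790, nat_lit 106523, nat_lit 65550,
  nat_lit 106521, nat_lit 180270, nat_lit 57363, nat_lit 180260, nat_lit 73783, nat_lit 32800,
  nat_lit 8207, nat_lit 131108, nat_lit 139301, nat_lit 98322, nat_lit 303143, nat_lit 163896,
  nat_lit 106529, nat_lit 147484, nat_lit 106519, nat_lit 98326, nat_lit 57387, nat_lit 65552,
  nat_lit 8195, nat_lit 147496, nat_lit 40967, nat_lit 49168, nat_lit 73747, nat_lit 16392,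
  nat_lit 24601, nat_lit 147480, nat_lit 352317, nat_lit 98320, nat_lit 106511, nat_lit 32778,
  nat_lit 73741, nat_lit 131124]

theorem hl10 : tl10.length = 272 := by decide +kernel

theorem ht10 : chk2All tl10 (nat_lit 2728) = true := by decide +kernel

theorem tiny8 : ∀ n, 8 ≤ n → n < 3000 → TwoCyc n := by
  intro n h1 h2
  rcases Nat.lt_or_ge n 280 with h | h
  · exact chk2All_spec _ _ ht0 n (by omega) (by rw [hl0]; exact h)
  rcases Nat.lt_or_ge n 552 with h | h
  · exact chk2All_spec _ _ ht1 n (by omega) (by rw [hl1]; exact h)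
  rcases Nat.lt_or_ge n 824 with h | h
  · exact chk2All_spec _ _ ht2 n (by omega) (by rw [hl2]; exact h)
  rcases Nat.lt_or_ge n 1096 with h | h
  · exact chk2All_spec _ _ ht3 n (by omega) (by rw [hl3]; exact h)
  rcases Nat.lt_or_ge n 1368 with h | h
  · exact chk2All_spec _ _ ht4 n (by omega) (by rw [hl4]; exact h)
  rcases Nat.lt_or_ge n 1640 with h | h
  · exact chk2All_spec _ _ ht5 n (by omega) (by rw [hl5]; exact h)
  rcases Nat.lt_or_ge n 1912 with h | h
  · exact chk2All_spec _ _ ht6 n (by omega) (by rw [hl6]; exact h)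
  rcases Nat.lt_or_ge n 2184 with h | h
  · exact chk2All_spec _ _ ht7 n (by omega) (by rw [hl7]; exact h)
  rcases Nat.lt_or_ge n 2456 with h | h
  · exact chk2All_spec _ _ ht8 n (by omega) (by rw [hl8]; exact h)
  rcases Nat.lt_or_ge n 2728 with h | h
  · exact chk2All_spec _ _ ht9 n (by omega) (by rw [hl9]; exact h)
  exact chk2All_spec _ _ ht10 n (by omega) (by rw [hl10]; exact h2)

end Pool.Agent.Helper69.TC
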