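import Pool.Agent.Helper69.TC.Blocks1
import Pool.Agent.Helper69.TC.Blocks2
import Pool.Agent.Helper69.TC.Blocks3
import Pool.Agent.Helper69.TC.Blocks4
import Pool.Agent.Helper69.TC.Blocks5
import Pool.Agent.Helper69.TC.Blocks6
import Pool.Agent.Helper69.TC.Tiny

set_option autoImplicit false

namespace Pool.Agent.Helper69.TC

open Pool.Agent.Helper9.TC

theorem two_primes (n p q : ℕ) (hp : p.Prime) (hq : q.Prime) (h1 : n ^ 2 < p) (h2 : p < q)
    (h3 : q < (n + 1) ^ 2) : TwoCyc n :=
  ⟨p, q, cyc_prime p hp, cyc_prime q hq, h1, h2, h3⟩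

/-- every root below two million has two cyclic numbers between consecutive squares -/
theorem small_case (n : ℕ) (hn : 1 ≤ n) (hn2 : n < 2000000) : TwoCyc n := by
  rcases Nat.lt_or_ge n 8 with h | h
  · interval_cases n
    · exact two_primes 1 2 3 (by norm_num) (by norm_num) (by norm_num) (by norm_num) (by norm_num)
    · exact two_primes 2 5 7 (by norm_num) (by norm_num) (by norm_num) (by norm_num) (by norm_num)
    · exact two_primes 3 11 13 (by norm_num) (by norm_num) (by norm_num) (by norm_num) (by norm_num)
    · exact two_primes 4 17 19 (by norm_num) (by norm_num) (by norm_num) (by norm_num) (by norm_num)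
    · exact two_primes 5 29 31 (by norm_num) (by norm_num) (by norm_num) (by norm_num) (by norm_num)
    · exact two_primes 6 37 41 (by norm_num) (by norm_num) (by norm_num) (by norm_num) (by norm_num)
    · exact two_primes 7 53 59 (by norm_num) (by norm_num) (by norm_num) (by norm_num) (by norm_num)
  rcases Nat.lt_or_ge n 3000 with h | h
  · exact tiny8 n (by omega) h
  rcases Nat.lt_or_ge n 3600 with h | h
  · exact blk0 n (by omega) h
  rcases Nat.lt_or_ge n 4320 with h | h
  · exact blk1 n (by omega) h
  rcases Nat.lt_or_ge n 5184 with h | h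
  · exact blk2 n (by omega) h
  rcases Nat.lt_or_ge n 6220 with h | h
  · exact blk3 n (by omega) h
  rcases Nat.lt_or_ge n 7464 with h | h
  · exact blk4 n (by omega) h
  rcases Nat.lt_or_ge n 8956 with h | h
  · exact blk5 n (by omega) h
  rcases Nat.lt_or_ge n 10746 with h | h
  · exact blk6 n (by omega) h
  rcases Nat.lt_or_ge n 12894 with h | h
  · exact blk7 n (by omega) h
  rcases Nat.lt_or_ge n 15472 with h | h
  · exact blk8 n (by omega) h
  rcases Nat.lt_or_ge n 18566 with h | h
  · exact blk9 n (by omega) h
  rcases Nat.lt_or_ge n 22278 with h | h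
  · exact blk10 n (by omega) h
  rcases Nat.lt_or_ge n 26732 with h | h
  · exact blk11 n (by omega) h
  rcases Nat.lt_or_ge n 32078 with h | h
  · exact blk12 n (by omega) h
  rcases Nat.lt_or_ge n 38492 with h | h
  · exact blk13 n (by omega) h
  rcases Nat.lt_or_ge n 46190 with h | h
  · exact blk14 n (by omega) h
  rcases Nat.lt_or_ge n 55428 with h | h
  · exact blk15 n (by omega) h
  rcases Nat.lt_or_ge n 66512 with h | h
  · exact blk16 n (by omega) h
  rcases Nat.lt_or_ge n 79814 with h | h
  · exact blk17 n (by omega) h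
  rcases Nat.lt_or_ge n 95776 with h | h
  · exact blk18 n (by omega) h
  rcases Nat.lt_or_ge n 114930 with h | h
  · exact blk19 n (by omega) h
  rcases Nat.lt_or_ge n 137916 with h | h
  · exact blk20 n (by omega) h
  rcases Nat.lt_or_ge n 165498 with h | h
  · exact blk21 n (by omega) h
  rcases Nat.lt_or_ge n 198596 with h | h
  · exact blk22 n (by omega) h
  rcases Nat.lt_or_ge n 238314 with h | h
  · exact blk23 n (by omega) h
  rcases Nat.lt_or_ge n 285976 with h | h
  · exact blk24 n (by omega) h
  rcases Nat.lt_or_ge n 343170 with h | h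
  · exact blk25 n (by omega) h
  rcases Nat.lt_or_ge n 411804 with h | h
  · exact blk26 n (by omega) h
  rcases Nat.lt_or_ge n 494164 with h | h
  · exact blk27 n (by omega) h
  rcases Nat.lt_or_ge n 592996 with h | h
  · exact blk28 n (by omega) h
  rcases Nat.lt_or_ge n 711594 with h | h
  · exact blk29 n (by omega) h
  rcases Nat.lt_or_ge n 840280 with h | h
  · exact blk30 n (by omega) h
  rcases Nat.lt_or_ge n 968754 with h | h
  · exact blk31 n (by omega) h
  rcases Nat.lt_or_ge n 1097040 with h | h
  · exact blk32 n (by omega) h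
  rcases Nat.lt_or_ge n 1225146 with h | h
  · exact blk33 n (by omega) h
  rcases Nat.lt_or_ge n 1353084 with h | h
  · exact blk34 n (by omega) h
  rcases Nat.lt_or_ge n 1480870 with h | h
  · exact blk35 n (by omega) h
  rcases Nat.lt_or_ge n 1608496 with h | h
  · exact blk36 n (by omega) h
  rcases Nat.lt_or_ge n 1735978 with h | h
  · exact blk37 n (by omega) h
  rcases Nat.lt_or_ge n 1863320 with h | h
  · exact blk38 n (by omega) h
  rcases Nat.lt_or_ge n 1990538 with h | h
  · exact blk39 n (by omega) h
  exact blk40 n (by omega) (by omega)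

end Pool.Agent.Helper69.TC
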